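import Pool.Agent.Lib.MP_f0b71a_alC.Tot

/-!
# Reduction modulo the maximal ideal, small maps
-/

universe u

namespace Pool.Agent.Lib.MP_f0b71a_alC

open IsLocalRing Finsupp Pool.Agent.Lib.MP_f0b71a_al

noncomputable section

variable {R : Type u} [CommRing R] [IsLocalRing R] {J : Type} {ι : Type}

omit [IsLocalRing R] in
theorem basis_sum (x : J →₀ R) : x = x.sum fun j c => c • single j (1 : R) := by
  conv_lhs => rw [← Finsupp.sum_single x]
  refine Finsupp.sum_congr fun j _ => ?_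
  simp

/-- The reduction modulo `𝔪`. -/
def rd (R : Type u) [CommRing R] [IsLocalRing R] (J : Type) :
    (J →₀ R) →ₗ[R] (J →₀ ResidueField R) :=
  Finsupp.mapRange.linearMap (Algebra.linearMap R (ResidueField R))

theorem rd_apply (x : J →₀ R) (j : J) : rd R J x j = residue R (x j) := rfl

theorem rd_single (j : J) (c : R) : rd R J (single j c) = single j (residue R c) := by
  unfold rd
  rw [Finsupp.mapRange.linearMap_apply, Finsupp.mapRange_single]
  rfl

theorem rd_eq_zero {x : J →₀ R} : rd R J x = 0 ↔ x ∈ mE R J := by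
  rw [mem_mE]
  constructor
  · intro h j
    exact (residue_eq_zero_iff _).1 (DFunLike.congr_fun h j)
  · intro h
    ext j
    exact (residue_eq_zero_iff _).2 (h j)

theorem rd_eq {x y : J →₀ R} (h : x - y ∈ mE R J) : rd R J x = rd R J y := by
  have h1 := rd_eq_zero.2 h
  rw [map_sub] at h1
  exact sub_eq_zero.1 h1

theorem smul_res_zero {a : R} (ha : a ∈ maximalIdeal R) (v : J →₀ ResidueField R) :
    a • v = 0 := by
  ext j
  rw [Finsupp.smul_apply]
  exact smul_residue_eq_zero ha _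

/-- A linear map with values in vectors over `k` is zero on `𝔪 X`. -/
theorem kill (u : (J →₀ R) →ₗ[R] (ι →₀ ResidueField R)) {z : J →₀ R} (hz : z ∈ mE R J) :
    u z = 0 := by
  rw [basis_sum z, Finsupp.sum, map_sum]
  refine Finset.sum_eq_zero fun j _ => ?_
  rw [map_smul]
  exact smul_res_zero (hz j) _

theorem kill_congr (u : (J →₀ R) →ₗ[R] (ι →₀ ResidueField R)) {x y : J →₀ R}
    (h : rd R J x = rd R J y) : u x = u y := by
  have h1 : rd R J (x - y) = 0 := by rw [map_sub, h, sub_self]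
  have h2 := kill u (rd_eq_zero.1 h1)
  rw [map_sub] at h2
  exact sub_eq_zero.1 h2

/-- The map induced on vectors over `k`. -/
def bar (f : (J →₀ R) →ₗ[R] (ι →₀ R)) :
    (J →₀ ResidueField R) →ₗ[R] (ι →₀ ResidueField R) :=
  Finsupp.lsum ℕ fun j => (LinearMap.toSpanSingleton (ResidueField R) (ι →₀ ResidueField R)
    (rd R ι (f (single j 1)))).restrictScalars R

theorem bar_single (f : (J →₀ R) →ₗ[R] (ι →₀ R)) (j : J) (c : ResidueField R) :
    bar f (single j c) = c • rd R ι (f (single j 1)) := by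
  unfold bar
  rw [Finsupp.lsum_single]
  rfl

theorem bar_rd (f : (J →₀ R) →ₗ[R] (ι →₀ R)) (x : J →₀ R) : bar f (rd R J x) = rd R ι (f x) := by
  have h : bar f ∘ₗ rd R J = rd R ι ∘ₗ f := by
    refine Finsupp.lhom_ext' fun j => LinearMap.ext_ring ?_
    simp only [LinearMap.comp_apply, Finsupp.lsingle_apply]
    rw [rd_single, bar_single, map_one, one_smul]
  exact LinearMap.congr_fun h x

/-- The linear map `χ : 𝔪 → k` applied to the coefficients. -/
def cof (χ : maximalIdeal R →ₗ[R] ResidueField R) : mE R J →ₗ[R] (J →₀ ResidueField R) where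
  toFun := fun z => Finsupp.onFinset z.1.support (fun j => χ ⟨z.1 j, z.2 j⟩) fun j hj => by
    rw [Finsupp.mem_support_iff]
    intro h0
    apply hj
    have h1 : (⟨z.1 j, z.2 j⟩ : maximalIdeal R) = 0 := Subtype.ext h0
    rw [h1, map_zero]
  map_add' := fun x y => by
    ext j
    simp only [Finsupp.onFinset_apply, Finsupp.add_apply]
    rw [← map_add]
    rfl
  map_smul' := fun c x => by
    ext j
    simp only [Finsupp.onFinset_apply, Finsupp.smul_apply, RingHom.id_apply]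
    rw [← map_smul]
    rfl

theorem cof_apply (χ : maximalIdeal R →ₗ[R] ResidueField R) (z : mE R J) (j : J) :
    cof χ z j = χ ⟨z.1 j, z.2 j⟩ := rfl

theorem cof_map (χ : maximalIdeal R →ₗ[R] ResidueField R) (f : (J →₀ R) →ₗ[R] (ι →₀ R))
    (z : mE R J) : cof χ ⟨f z.1, map_mE f z.2⟩ = bar f (cof χ z) := by
  have h1 : cof χ z = ∑ j ∈ z.1.support, single j (χ ⟨z.1 j, z.2 j⟩) := by
    ext i
    rw [cof_apply, Finsupp.finsetSum_apply]
    by_cases hi : i ∈ z.1.support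
    · rw [Finset.sum_eq_single i (fun j _ hj => Finsupp.single_eq_of_ne' hj)
        (fun h => absurd hi h), Finsupp.single_eq_same]
    · rw [Finset.sum_eq_zero fun j hj => Finsupp.single_eq_of_ne' (by
        rintro rfl
        exact hi hj)]
      have h2 : z.1 i = 0 := Finsupp.notMem_support_iff.1 hi
      have h3 : (⟨z.1 i, z.2 i⟩ : maximalIdeal R) = 0 := Subtype.ext h2
      rw [h3, map_zero]
  rw [h1, map_sum]
  ext i
  rw [Finsupp.finsetSum_apply, cof_apply]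
  have h2 : (⟨f z.1 i, map_mE f z.2 i⟩ : maximalIdeal R) =
      ∑ j ∈ z.1.support, (f (single j 1) i) • (⟨z.1 j, z.2 j⟩ : maximalIdeal R) := by
    ext
    rw [AddSubmonoidClass.coe_finsetSum]
    have h3 : f z.1 i = ∑ j ∈ z.1.support, z.1 j * f (single j 1) i := by
      conv_lhs => rw [basis_sum z.1]
      rw [Finsupp.sum, map_sum, Finsupp.finsetSum_apply]
      refine Finset.sum_congr rfl fun j _ => ?_
      rw [map_smul, Finsupp.smul_apply, smul_eq_mul]
    change f z.1 i = _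
    rw [h3]
    refine Finset.sum_congr rfl fun j _ => ?_
    change _ = f (single j 1) i * z.1 j
    ring
  change χ ⟨f z.1 i, map_mE f z.2 i⟩ = _
  rw [h2, map_sum]
  refine Finset.sum_congr rfl fun j _ => ?_
  rw [map_smul, bar_single, Finsupp.smul_apply, rd_apply, Algebra.smul_def, smul_eq_mul]
  exact mul_comm _ _

theorem cof_smul (χ : maximalIdeal R →ₗ[R] ResidueField R) {a : R} (ha : a ∈ maximalIdeal R)
    {c : R} (hc : residue R c = χ ⟨a, ha⟩) (x : J →₀ R) :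
    cof χ ⟨a • x, smul_mem_mE ha x⟩ = c • rd R J x := by
  ext j
  have h : (⟨(a • x) j, smul_mem_mE ha x j⟩ : maximalIdeal R) = x j • ⟨a, ha⟩ := by
    ext
    change a * x j = x j * a
    ring
  refine (congrArg χ h).trans ?_
  rw [map_smul, ← hc, Finsupp.smul_apply, rd_apply, Algebra.smul_def, Algebra.smul_def]
  exact mul_comm _ _

/-! ### Small maps -/

/-- `u` is small: the lengths of its graded pieces are bounded by sums of shifts of `ℓ`. -/
def Sm (dg : J → ℕ) (ℓ : ℤ → ℕ∞) (u : (J →₀ R) →ₗ[R] (ι →₀ ResidueField R)) : Prop :=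
  ∃ c N : ℕ, ∀ g : ℤ, Module.length R ((G R dg g).map u) ≤
    c * ∑ j ∈ Finset.Icc (-(N : ℤ)) N, ℓ (g + j)

theorem sum_mono (ℓ : ℤ → ℕ∞) {N M : ℕ} (h : N ≤ M) (g : ℤ) :
    ∑ j ∈ Finset.Icc (-(N : ℤ)) N, ℓ (g + j) ≤ ∑ j ∈ Finset.Icc (-(M : ℤ)) M, ℓ (g + j) := by
  refine Finset.sum_le_sum_of_subset fun j hj => ?_
  rw [Finset.mem_Icc] at hj ⊢
  omega

theorem sum_shift (ℓ : ℤ → ℕ∞) (N : ℕ) (r g : ℤ) :
    ∑ j ∈ Finset.Icc (-(N : ℤ)) N, ℓ (g + r + j) ≤
      ∑ j ∈ Finset.Icc (-((N + r.natAbs : ℕ) : ℤ)) (N + r.natAbs : ℕ), ℓ (g + j) := by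
  classical
  have h1 : ∑ j ∈ Finset.Icc (-(N : ℤ)) N, ℓ (g + r + j) =
      ∑ j ∈ (Finset.Icc (-(N : ℤ)) N).image (fun j => r + j), ℓ (g + j) := by
    rw [Finset.sum_image fun a _ b _ hab => by simpa using hab]
    refine Finset.sum_congr rfl fun j _ => ?_
    rw [add_assoc]
  rw [h1]
  refine Finset.sum_le_sum_of_subset fun j hj => ?_
  rw [Finset.mem_image] at hj
  obtain ⟨i, hi, rfl⟩ := hj
  rw [Finset.mem_Icc] at hi ⊢
  omega

omit [IsLocalRing R] in
theorem length_mono {V : Type u} [AddCommGroup V] [Module R V] {A B : Submodule R V}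
    (h : A ≤ B) : Module.length R A ≤ Module.length R B :=
  Module.length_le_of_injective (Submodule.inclusion h) (Submodule.inclusion_injective h)

theorem Sm.add {dg : J → ℕ} {ℓ : ℤ → ℕ∞} {u v : (J →₀ R) →ₗ[R] (ι →₀ ResidueField R)}
    (hu : Sm dg ℓ u) (hv : Sm dg ℓ v) : Sm dg ℓ (u + v) := by
  obtain ⟨c, N, h1⟩ := hu
  obtain ⟨c', N', h2⟩ := hv
  refine ⟨c + c', N + N', fun g => ?_⟩
  have h3 : (G R dg g).map (u + v) ≤ (G R dg g).map u ⊔ (G R dg g).map v := by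
    rintro - ⟨x, hx, rfl⟩
    exact Submodule.add_mem_sup ⟨x, hx, rfl⟩ ⟨x, hx, rfl⟩
  refine (length_mono h3).trans ((length_sup_le _ _).trans ?_)
  push_cast
  rw [add_mul]
  refine add_le_add ((h1 g).trans ?_) ((h2 g).trans ?_)
  · exact mul_le_mul_right (sum_mono ℓ (Nat.le_add_right N N') g) _
  · exact mul_le_mul_right (sum_mono ℓ (Nat.le_add_left N' N) g) _

theorem Sm.zero {dg : J → ℕ} {ℓ : ℤ → ℕ∞} :
    Sm dg ℓ (0 : (J →₀ R) →ₗ[R] (ι →₀ ResidueField R)) := by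
  refine ⟨0, 0, fun g => ?_⟩
  rw [Submodule.map_zero, Module.length_bot]
  exact zero_le

theorem Sm.post {κ : Type} {dg : J → ℕ} {ℓ : ℤ → ℕ∞}
    {u : (J →₀ R) →ₗ[R] (ι →₀ ResidueField R)} (hu : Sm dg ℓ u)
    (f : (ι →₀ ResidueField R) →ₗ[R] (κ →₀ ResidueField R)) : Sm dg ℓ (f ∘ₗ u) := by
  obtain ⟨c, N, h1⟩ := hu
  refine ⟨c, N, fun g => ?_⟩
  rw [Submodule.map_comp]
  exact (length_map_le _ _).trans (h1 g)

theorem Sm.pre {dg : J → ℕ} {ℓ : ℤ → ℕ∞}
    {u : (J →₀ R) →ₗ[R] (ι →₀ ResidueField R)} (hu : Sm dg ℓ u) {r : ℤ}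
    {f : (J →₀ R) →ₗ[R] (J →₀ R)} (hf : ∀ j, f (single j 1) ∈ G R dg (dg j + r)) :
    Sm dg ℓ (u ∘ₗ f) := by
  obtain ⟨c, N, h1⟩ := hu
  refine ⟨c, N + r.natAbs, fun g => ?_⟩
  have h2 : (G R dg g).map (u ∘ₗ f) ≤ (G R dg (g + r)).map u := by
    rintro - ⟨x, hx, rfl⟩
    exact ⟨f x, map_sh hf hx, rfl⟩
  refine (length_mono h2).trans ((h1 _).trans ?_)
  exact mul_le_mul_right (sum_shift ℓ N r g) _

theorem Sm.smul {dg : J → ℕ} {ℓ : ℤ → ℕ∞} {u : (J →₀ R) →ₗ[R] (ι →₀ ResidueField R)}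
    (hu : Sm dg ℓ u) (a : R) : Sm dg ℓ (a • u) := by
  have h : a • u = (a • (LinearMap.id : (ι →₀ ResidueField R) →ₗ[R] _)) ∘ₗ u :=
    LinearMap.ext fun _ => rfl
  rw [h]
  exact hu.post _

theorem Sm.neg {dg : J → ℕ} {ℓ : ℤ → ℕ∞} {u : (J →₀ R) →ₗ[R] (ι →₀ ResidueField R)}
    (hu : Sm dg ℓ u) : Sm dg ℓ (-u) := by
  have h := hu.smul (-1)
  have h2 : (-1 : R) • u = -u := by
    refine LinearMap.ext fun x => ?_
    rw [LinearMap.smul_apply, LinearMap.neg_apply]
    exact neg_one_smul R (u x)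
  rwa [h2] at h

theorem Sm.sum {κ : Type} {dg : J → ℕ} {ℓ : ℤ → ℕ∞} (s : Finset κ)
    (u : κ → (J →₀ R) →ₗ[R] (ι →₀ ResidueField R)) (h : ∀ i ∈ s, Sm dg ℓ (u i)) :
    Sm dg ℓ (∑ i ∈ s, u i) := by
  classical
  induction s using Finset.induction_on with
  | empty => exact Sm.zero
  | insert i s hi ih =>
    rw [Finset.sum_insert hi]
    exact (h i (Finset.mem_insert_self _ _)).add
      (ih fun j hj => h j (Finset.mem_insert_of_mem hj))

end

end Pool.Agent.Lib.MP_f0b71a_alC
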