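import Pool.Agent.Lib.MP_f0b71a_al.Mod

/-!
# Central elements of degree one of the Yoneda algebra `Ext(k, k)`

Definitions of the statement.
-/

universe u

namespace Pool.Agent.Lib.MP_f0b71a_alC

open IsLocalRing Pool.Agent.Lib.MP_f0b71a_al
open scoped Matrix

noncomputable section

variable {R : Type u} [CommRing R] [IsLocalRing R]

/-- `Ext^n(k, k)` is the set of the linear maps `u : P_n → k`, where `P` is the minimal resolution of
`k`. A lift of `u` is a chain map `P_(n+m) → P_m`, `m ≥ 0`, over `u`. -/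
structure YLift (P : MinRes R) {n : ℕ} (u : (Fin (P.b n) → R) →ₗ[R] ResidueField R) where
  /-- the matrices -/
  U : ∀ m, Matrix (Fin (P.b m)) (Fin (P.b (n + m))) R
  comm : ∀ m, P.d m * U (m + 1) = U m * P.d (n + m)
  res : ∀ x, residue R ((U 0 *ᵥ x) P.i0) = u x

/-- A linear map `χ : 𝔪 → k` is the element `χ ∘ d_0 : P_1 → k` of `Ext^1(k, k)`, and the matrices
`Φ.φ m : P_(m+1) → P_m` of `Φ : Deg P χ` are a chain map over it. The Yoneda products of `χ` and
`u : P_n → k` are `χ u = χ ∘ d_0 ∘ U_1` and `u χ = u ∘ φ_n`. The element `χ` is central (in the graded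
sense) if `χ u = (-1)^n u χ` for all `n` and all `u`. -/
def Central (P : MinRes R) (χ : maximalIdeal R →ₗ[R] ResidueField R) : Prop :=
  ∀ (Φ : Deg P χ) (n : ℕ) (u : (Fin (P.b n) → R) →ₗ[R] ResidueField R) (V : YLift P u)
    (x : Fin (P.b (n + 1)) → R),
    χ (P.dm 0 (V.U 1 *ᵥ x) P.i0) = (-1) ^ n * u (Φ.φ n *ᵥ x)

/-- The square `χ χ = χ ∘ d_0 ∘ φ_1` of `χ` in `Ext^2(k, k)` is zero. (If the characteristic of `k` is not
two then this holds for every central `χ`, take `u = χ` in the definition of `Central`.) -/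
def SqZero (P : MinRes R) (χ : maximalIdeal R →ₗ[R] ResidueField R) : Prop :=
  ∀ (Φ : Deg P χ) (x : Fin (P.b 2) → R), χ (P.dm 0 (Φ.φ 1 *ᵥ x) P.i0) = 0

end

end Pool.Agent.Lib.MP_f0b71a_alC
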