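import Pool.Agent.Lib.MP_f0b71a_alC.TotP
import Pool.Agent.Lib.MP_f0b71a_alC.Cdef
import Pool.Agent.Lib.MP_f0b71a_al.Ex
import Mathlib.LinearAlgebra.Matrix.Rank

/-!
# Pairs of modules with a common non central direction
-/

universe u

namespace Pool.Agent.Lib.MP_f0b71a_alC

open IsLocalRing Finsupp Pool.Agent.Lib.MP_f0b71a_al
open scoped Matrix

noncomputable section

section

variable {R : Type u} [CommRing R] [IsLocalRing R] {P : MinRes R}

/-! ### Existence of the lifts -/

theorem exists_ylift {n : ℕ} (u : (Fin (P.b n) → R) →ₗ[R] ResidueField R) :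
    Nonempty (YLift P u) := by
  choose v hv using fun j : Fin (P.b n) => residue_surjective (u (Pi.single j 1))
  let h0 : Matrix (Fin (P.b 0)) (Fin (P.b n)) R := Matrix.of fun _ j => v j
  have hh : ∀ x (i : Fin (P.b 0)), residue R ((h0 *ᵥ x) i) = u x := by
    intro x i
    have h1 : (LinearMap.proj i) ∘ₗ red (P.b 0) ∘ₗ h0.mulVecLin = u := by
      refine ext_single fun j => ?_
      simp only [LinearMap.comp_apply, Matrix.mulVecLin_apply, LinearMap.proj_apply]
      rw [← hv j, Matrix.mulVec_single_one]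
      rfl
    exact LinearMap.congr_fun h1 x
  obtain ⟨h, h1, h2⟩ := exists_seq (c := P.b) (a := fun m => P.b (n + m)) (1 : R)
    P.d (fun m => P.d (n + m)) (fun n x hx => P.exact n x hx) (fun m => P.mul_eq_zero (n + m))
    (fun n => 0) (fun n => by simp) h0 (fun j => by
      obtain ⟨y, hy⟩ := (P.ex0 (fun i => (h0 * P.d n) i j)).1 fun i => by
        have h3 := hh (fun i => P.d n i j) i
        have h4 : u (fun i => P.d n i j) = 0 :=
          mem_sum_smul u (fun _ ha v => smul_residue_eq_zero ha v) _ fun i => P.mem n i j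
        rw [h4] at h3
        rw [← residue_eq_zero_iff]
        have h6 := congrFun (mulVec_col (D := h0) (A := P.d n) j) i
        exact (congrArg (residue R) h6.symm).trans h3
      refine ⟨y, hy.symm.trans ?_⟩
      simp)
  refine ⟨⟨h, fun n => ?_, fun x => ?_⟩⟩
  · rw [h2 n]
    simp
  · rw [h1]
    exact hh x P.i0

theorem exists_deg [IsNoetherianRing R] (P : MinRes R)
    (χ : maximalIdeal R →ₗ[R] ResidueField R) : Nonempty (Deg P χ) := by
  obtain ⟨F⟩ := exists_res R (maximalIdeal R)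
  obtain ⟨Lf⟩ := exists_liftM F P (LinearMap.id : maximalIdeal R →ₗ[R] maximalIdeal R)
  obtain ⟨Le⟩ := exists_liftE F P χ
  exact ⟨mkDeg Lf Le⟩

/-! ### Central elements and the operator `δ` -/

variable {χ : maximalIdeal R →ₗ[R] ResidueField R}

theorem lift_unique (Φ Ψ : Deg P χ) (n : ℕ) (x : Fin (P.b (n + 1)) → R) :
    red _ (Φ.φ n *ᵥ x) = red _ (Ψ.φ n *ᵥ x) := by
  have h := null (totX P) (totX P) totX_exact (-1) (-1) ((totD Φ).D - (totD Ψ).D)
    (fun j => Submodule.sub_mem _ ((totD Φ).DG j) ((totD Ψ).DG j))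
    (fun z => by
      rw [LinearMap.sub_apply, LinearMap.sub_apply, map_sub, (totD Φ).eD, (totD Ψ).eD,
        neg_one_smul]
      abel)
    (fun j hj => by
      rw [LinearMap.sub_apply, ← rd_eq_zero, map_sub, (totD Φ).res j (by omega),
        (totD Ψ).res j (by omega), sub_self]) (inc P (n + 1) x)
  rw [LinearMap.sub_apply, totD_D, totD_D, ← rd_eq_zero, map_sub, rd_inc, rd_inc, sub_eq_zero] at h
  funext i
  have h1 := DFunLike.congr_fun h ⟨n, i⟩
  rw [inK_apply, inK_apply, Matrix.smul_mulVec, Matrix.smul_mulVec, map_smul, map_smul] at h1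
  have h2 := congrArg (fun t => (-1 : R) ^ n • t) h1
  simp only [Pi.smul_apply, smul_smul, neg_one_pow_mul_self, one_smul] at h2
  exact h2

theorem central_of (Φ : Deg P χ) (h : (totD Φ).δ = 0) : Central P χ := by
  intro Ψ n u V x
  -- the operator `δ` in coordinates
  have h1 : P.D χ n x = (-1 : R) ^ n • red _ (Φ.φ n *ᵥ x) := by
    have h2 := LinearMap.congr_fun h (inc P (n + 1) x)
    rw [De.δ_apply, totD_D, rd_inc, d2_inc, LinearMap.zero_apply, sub_eq_zero,
      Matrix.smul_mulVec, map_smul] at h2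
    funext i
    have h3 := DFunLike.congr_fun h2 ⟨n, i⟩
    rw [inK_apply, inK_apply] at h3
    exact h3.symm
  -- `u` through `U_0`
  have h4 : ∀ z : Fin (P.b n) → R, u z =
      act (m := P.b 0) (n := P.b n) (ResidueField R) (V.U 0) (red (P.b n) z) P.i0 := by
    intro z
    rw [← red_mulVec, ← V.res z]
    rfl
  have h5 : χ (P.dm 0 (V.U 1 *ᵥ x) P.i0) =
      act (m := P.b 0) (n := P.b n) (ResidueField R) (V.U 0) (P.D χ n x) P.i0 := by
    have h6 : P.dm 0 (V.U 1 *ᵥ x) P.i0 =
        act (m := P.b 0) (n := P.b n) (maximalIdeal R) (V.U 0) (P.dm n x) P.i0 := by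
      ext
      rw [P.dm_coe, act_coe, Matrix.mulVec_mulVec, V.comm, ← Matrix.mulVec_mulVec]
      rfl
    rw [h6]
    exact congrFun (act_map (m := P.b 0) (n := P.b n) χ (V.U 0) (P.dm n x)) P.i0
  rw [h5, h1, map_smul, Pi.smul_apply, h4, lift_unique Ψ Φ n x, Algebra.smul_def, map_pow,
    map_neg, map_one]

theorem sqZero_of (Φ : Deg P χ) (h : (totD Φ).T = 0) : SqZero P χ := by
  intro Ψ x
  have h1 : P.D χ 0 (Φ.φ 1 *ᵥ x) = 0 := by
    have h2 := LinearMap.congr_fun h (inc P 2 x)
    rw [totT_inc, LinearMap.zero_apply] at h2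
    have h3 : inK P 0 (Φ.L χ 0 x) = 0 := by
      have h4 := congrArg (fun t => (-1 : R) ^ (0 + 1) • t) h2
      simpa only [smul_smul, neg_one_pow_mul_self, one_smul, smul_zero] using h4
    funext i
    have h5 := DFunLike.congr_fun h3 ⟨0, i⟩
    rw [inK_apply] at h5
    exact h5
  have h2 : P.D χ 0 (Ψ.φ 1 *ᵥ x) = P.D χ 0 (Φ.φ 1 *ᵥ x) :=
    P.D_congr χ 0 (lift_unique Ψ Φ 1 x)
  rw [← P.D_apply, h2, h1]
  rfl

/-! ### Comparison of sequences -/

theorem sm_self {ι : Type} {J : Type} (dg : J → ℕ) (u : (J →₀ R) →ₗ[R] (ι →₀ ResidueField R)) :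
    Sm dg (fun g => Module.length R ((G R dg g).map u)) u := by
  refine ⟨1, 0, fun g => ?_⟩
  have h : Finset.Icc (-((0 : ℕ) : ℤ)) ((0 : ℕ) : ℤ) = {0} := by simp
  rw [h, Finset.sum_singleton, Nat.cast_one, one_mul, add_zero]

theorem dom_of_sm {ℓ : ℤ → ℕ∞} (m : ℕ → ℕ) (s : ℕ) (h : Sm (totX P).dg ℓ (rd R (Ix P)))
    (h1 : ∀ n : ℕ, ℓ ((n + 2 : ℕ) : ℤ) ≤ m (n + s)) : Dom P.b m := by
  classical
  obtain ⟨c, N, h⟩ := h
  refine ⟨c, N + 2, 2 * N + 1 + s, 0, fun n _ => ?_⟩
  have h2 := (length_rd (P := P) (n + (N + 2))).trans (h ((n + (N + 2) : ℕ) : ℤ))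
  have h3 : Finset.Icc (-(N : ℤ)) N = (Finset.range (2 * N + 1)).image fun k : ℕ => (k : ℤ) - N := by
    ext j
    rw [Finset.mem_Icc, Finset.mem_image]
    constructor
    · rintro ⟨h4, h5⟩
      exact ⟨(j + N).toNat, by rw [Finset.mem_range]; omega, by omega⟩
    · rintro ⟨k, hk, rfl⟩
      rw [Finset.mem_range] at hk
      omega
  rw [h3, Finset.sum_image (fun a _ b _ hab => by
    have hab' : (a : ℤ) - N = b - N := hab
    omega)] at h2
  have h4 : ∑ k ∈ Finset.range (2 * N + 1), ℓ (((n + (N + 2) : ℕ) : ℤ) + ((k : ℤ) - N)) ≤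
      ∑ k ∈ Finset.range (2 * N + 1), (m (n + k + s) : ℕ∞) := by
    refine Finset.sum_le_sum fun k _ => ?_
    have h5 : ((n + (N + 2) : ℕ) : ℤ) + ((k : ℤ) - N) = ((n + k + 2 : ℕ) : ℤ) := by
      push_cast
      ring
    rw [h5]
    exact h1 (n + k)
  have h5 : (P.b (n + (N + 2)) : ℕ∞) ≤
      ((c * ∑ k ∈ Finset.range (2 * N + 1), m (n + k + s) : ℕ) : ℕ∞) := by
    push_cast
    exact h2.trans (mul_le_mul_right h4 _)
  have h6 : P.b (n + (N + 2)) ≤ c * ∑ k ∈ Finset.range (2 * N + 1), m (n + k + s) := by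
    exact_mod_cast h5
  refine h6.trans (Nat.mul_le_mul_left c ?_)
  have h7 : ∑ k ∈ Finset.range (2 * N + 1), m (n + k + s) =
      ∑ j ∈ (Finset.range (2 * N + 1)).image (fun k => k + s), m (n + j) := by
    rw [Finset.sum_image (fun a _ b _ hab => by
      have hab' : a + s = b + s := hab
      omega)]
    refine Finset.sum_congr rfl fun k _ => ?_
    rw [add_assoc]
  rw [h7]
  refine Finset.sum_le_sum_of_subset fun j hj => ?_
  rw [Finset.mem_image] at hj
  obtain ⟨k, hk, rfl⟩ := hj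
  rw [Finset.mem_range] at hk ⊢
  omega

/-! ### Rank of the transposed operator -/

/-- The length of the range of a matrix over `k` is its rank. -/
theorem length_range_matrix {m n : ℕ} (A : Matrix (Fin m) (Fin n) (ResidueField R))
    (L : (Fin n → R) →ₗ[R] (Fin m → ResidueField R)) (hL : ∀ x, L x = A *ᵥ red n x) :
    Module.length R (LinearMap.range L) = A.rank := by
  have h1 : LinearMap.range L = (LinearMap.range A.mulVecLin).restrictScalars R := by
    ext v
    constructor
    · rintro ⟨x, rfl⟩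
      exact ⟨red n x, (hL x).symm⟩
    · rintro ⟨w, rfl⟩
      obtain ⟨x, rfl⟩ := red_surjective (R := R) _ w
      exact ⟨x, hL x⟩
  have e1 := (Module.finBasis (ResidueField R) (LinearMap.range A.mulVecLin)).equivFun
  have e2 := e1.restrictScalars R
  have e3 := Submodule.restrictScalarsEquiv R (ResidueField R) (Fin m → ResidueField R)
    (LinearMap.range A.mulVecLin)
  have e4 := e3.restrictScalars R
  rw [h1, (e4.trans e2).length_eq, length_vec]
  rfl

theorem lin_matrix {m n : ℕ} (L : (Fin n → R) →ₗ[R] (Fin m → ResidueField R))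
    (x : Fin n → R) :
    L x = (Matrix.of fun i j => L (Pi.single j 1) i : Matrix (Fin m) (Fin n) (ResidueField R)) *ᵥ
      red n x := by
  have h : L = ((Matrix.of fun i j => L (Pi.single j 1) i :
      Matrix (Fin m) (Fin n) (ResidueField R)).mulVecLin.restrictScalars R) ∘ₗ red n := by
    refine ext_single fun j => ?_
    rw [LinearMap.comp_apply]
    have h1 : red (R := R) n (Pi.single j 1) = Pi.single j 1 := by
      funext i
      rw [red_apply]
      by_cases hi : i = j
      · rw [hi, Pi.single_eq_same, Pi.single_eq_same, map_one]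
      · rw [Pi.single_eq_of_ne hi, Pi.single_eq_of_ne hi, map_zero]
    rw [h1]
    change _ = _ *ᵥ Pi.single j 1
    rw [Matrix.mulVec_single_one]
    rfl
  exact LinearMap.congr_fun h x

theorem length_Lt (Φ : Deg P χ) (n : ℕ) :
    Module.length R (LinearMap.range (Φ.Lt χ n)) = Module.length R (LinearMap.range (Φ.L χ n)) := by
  have h1 : (Matrix.of fun i j => Φ.Lt χ n (Pi.single j 1) i :
      Matrix (Fin (P.b (n + 2))) (Fin (P.b n)) (ResidueField R)) =
      (Matrix.of fun i j => Φ.L χ n (Pi.single j 1) i :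
        Matrix (Fin (P.b n)) (Fin (P.b (n + 2))) (ResidueField R))ᵀ := by
    ext i j
    rw [Matrix.of_apply, Matrix.transpose_apply, Matrix.of_apply, Φ.Lt_apply, Φ.L_apply,
      act_apply, P.D_apply]
    have h2 : P.dm n (Φ.φ (n + 1) *ᵥ Pi.single i 1) j =
        ∑ l, Φ.φ (n + 1) l i • (⟨P.d n j l, P.mem n j l⟩ : maximalIdeal R) := by
      ext
      rw [P.dm_coe, AddSubmonoidClass.coe_finsetSum, Matrix.mulVec_single_one, Matrix.mulVec,
        dotProduct]
      refine Finset.sum_congr rfl fun l _ => ?_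
      rw [mul_comm]
      rfl
    rw [h2, map_sum]
    refine Finset.sum_congr rfl fun l _ => ?_
    rw [map_smul, Matrix.transpose_apply, P.Dt_apply]
    refine congrArg _ (congrArg χ (Subtype.ext ?_))
    rw [P.dt_coe, Matrix.mulVec_single_one]
    rfl
  rw [length_range_matrix _ _ (lin_matrix (Φ.L χ n)), length_range_matrix _ _
    (lin_matrix (Φ.Lt χ n)), h1, Matrix.rank_transpose]

end

section

variable {R : Type u} [CommRing R] [IsLocalRing R] [IsNoetherianRing R]
  {M : Type u} [AddCommGroup M] [Module R M] [Module.Finite R M]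
  {N : Type u} [AddCommGroup N] [Module R N] [Module.Finite R N]

omit [IsNoetherianRing R] in
theorem exists_one {χ : maximalIdeal R →ₗ[R] ResidueField R} (h : χ ≠ 0) :
    ∃ (y : R) (hy : y ∈ maximalIdeal R), χ ⟨y, hy⟩ = 1 := by
  obtain ⟨z, hz⟩ : ∃ z, χ z ≠ 0 := by
    by_contra hcon
    push Not at hcon
    exact h (LinearMap.ext fun z => by rw [hcon z]; rfl)
  obtain ⟨c, hc⟩ := residue_surjective (χ z)⁻¹
  refine ⟨(c • z).1, (c • z).2, ?_⟩
  have h1 : χ (c • z) = 1 := by
    rw [map_smul, Algebra.smul_def]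
    change residue R c * χ z = 1
    rw [hc, inv_mul_cancel₀ hz]
  exact h1

/-- A common direction which is not central, or has a nonzero square. -/
theorem noncentral_dom {χ : maximalIdeal R →ₗ[R] ResidueField R} (h0 : χ ≠ 0)
    (hM : χ ∈ Directions R M) (hN : χ ∈ Directions R N) (P : MinRes R) (F : Res R M)
    (hc : ¬ (Central P χ ∧ SqZero P χ)) :
    (Dom P.b fun n => mu R (TorR F N n)) ∧ Dom P.b fun n => mu R (ExtR F N n) := by
  obtain ⟨y, hy, h1⟩ := exists_one h0
  obtain ⟨f, ε, hf⟩ := hM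
  obtain ⟨g, δ, hg⟩ := hN
  subst hf
  obtain ⟨Lf⟩ := exists_liftM F P f
  obtain ⟨Le⟩ := exists_liftE F P ε
  have key : Sm (totX P).dg (fun g => Module.length R
      ((G R (totX P).dg g).map (totD (mkDeg Lf Le)).T)) (rd R (Ix P)) := by
    by_cases hne : (totD (mkDeg Lf Le)).δ = 0
    · exact (totD (mkDeg Lf Le)).small_rd' totX_exact totX_uni (SI P) mem_SI (sm_self _ _) hne
        fun h => hc ⟨central_of _ hne, sqZero_of _ h⟩
    · exact (totD (mkDeg Lf Le)).small_rd totX_exact totX_uni (SI P) mem_SI hy h1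
        (sm_self _ _) hne
  have hL : ∀ n, Module.length R (LinearMap.range ((mkDeg Lf Le).L (ε ∘ₗ f) n)) ≤
      mu R (TorR F N n) := fun n => by
    have h3 := tor_indep (g := g) (δ := δ) Lf Le n
    rwa [← hg] at h3
  have hLt : ∀ n, Module.length R (LinearMap.range ((mkDeg Lf Le).L (ε ∘ₗ f) n)) ≤
      mu R (ExtR F N (n + 1)) := fun n => by
    have h3 := ext_indep (g := g) (δ := δ) Lf Le n
    rw [← length_Lt]
    rwa [← hg] at h3
  exact ⟨dom_of_sm _ 0 key fun n => (totT_le _ n).trans (hL n),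
    dom_of_sm _ 1 key fun n => (totT_le _ n).trans (hLt n)⟩

end

end

end Pool.Agent.Lib.MP_f0b71a_alC
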