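import Pool.Agent.Lib.MP_f0b71a_alC.Mul

/-!
# The coproduct formula and the descent of small elements
-/

universe u

namespace Pool.Agent.Lib.MP_f0b71a_alC

open IsLocalRing Finsupp Pool.Agent.Lib.MP_f0b71a_al

noncomputable section

section

variable {R : Type u} [CommRing R] {ι : Type}

theorem etq_G {dg : ι → ℕ} (q : ℕ) {n : ℕ} {x : ι →₀ R} (hx : x ∈ G R dg n) :
    eta R (fun i => q * dg i) x = (-1 : R) ^ (q * n) • x := by
  have h := map_G (eta R (fun i => q * dg i) - (-1 : R) ^ (q * n) • LinearMap.id)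
    (⊥ : Submodule R (ι →₀ R)) (g := n) (fun j hj => by
      rw [Submodule.mem_bot, LinearMap.sub_apply, eta_single, LinearMap.smul_apply,
        show dg j = n by omega]
      exact sub_self _) hx
  rw [Submodule.mem_bot, LinearMap.sub_apply] at h
  exact sub_eq_zero.1 h

theorem etq_comm {dg : ι → ℕ} (q : ℕ) {f : (ι →₀ R) →ₗ[R] (ι →₀ R)} {r : ℤ}
    (hf : ∀ i, f (single i 1) ∈ G R dg (dg i + r)) (x : ι →₀ R) :
    eta R (fun i => q * dg i) (f x) =
      (-1 : R) ^ (q * r.natAbs) • f (eta R (fun i => q * dg i) x) := by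
  have h : eta R (fun i => q * dg i) ∘ₗ f =
      (-1 : R) ^ (q * r.natAbs) • (f ∘ₗ eta R (fun i => q * dg i)) := lin_ext fun i => by
    rw [LinearMap.comp_apply, LinearMap.smul_apply, LinearMap.comp_apply, eta_single, map_smul,
      smul_smul]
    rcases lt_or_ge ((dg i : ℤ) + r) 0 with h0 | h0
    · rw [G_neg h0 (hf i), map_zero, smul_zero]
    · obtain ⟨n, hn⟩ := Int.eq_ofNat_of_zero_le h0
      have h1 := hf i
      rw [hn] at h1
      rw [etq_G q h1, ← pow_add, ← mul_add, pow_mul', pow_mul']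
      congr 2
      refine neg_one_pow_congr ?_
      rcases le_total 0 r with hr | hr
      · exact ⟨0, by omega⟩
      · exact ⟨r, by omega⟩
  exact LinearMap.congr_fun h x

end

variable {R : Type u} [CommRing R] [IsLocalRing R] {ι J : Type}

/-- A map of degree `r` which commutes with the differentials up to `ε`. -/
def CM (Y : Cpx R J) (X : Cpx R ι) (r : ℤ) (ε : R) (f : (J →₀ R) →ₗ[R] (ι →₀ R)) : Prop :=
  (∀ j, f (single j 1) ∈ G R X.dg (Y.dg j + r)) ∧ ∀ x, X.e (f x) = ε • f (Y.e x)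

theorem CM.sub {Y : Cpx R J} {X : Cpx R ι} {r : ℤ} {ε : R} {f g : (J →₀ R) →ₗ[R] (ι →₀ R)}
    (hf : CM Y X r ε f) (hg : CM Y X r ε g) : CM Y X r ε (f - g) :=
  ⟨fun j => Submodule.sub_mem _ (hf.1 j) (hg.1 j), fun x => by
    rw [LinearMap.sub_apply, map_sub, hf.2, hg.2, ← smul_sub]
    rfl⟩

theorem CM.sum {Y : Cpx R J} {X : Cpx R ι} {r : ℤ} {ε : R} {κ : Type} (s : Finset κ)
    (f : κ → (J →₀ R) →ₗ[R] (ι →₀ R)) (hf : ∀ i ∈ s, CM Y X r ε (f i)) :
    CM Y X r ε (∑ i ∈ s, f i) :=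
  ⟨fun j => by
    rw [LinearMap.sum_apply]
    exact Submodule.sum_mem _ fun i hi => (hf i hi).1 j, fun x => by
    rw [LinearMap.sum_apply, LinearMap.sum_apply, map_sum, Finset.smul_sum]
    exact Finset.sum_congr rfl fun i hi => (hf i hi).2 x⟩

variable {X : Cpx R ι} {o : ι} (μ : Pr X o)

theorem CM.pr {a b : ℤ} {ε β : R} {A T : (ι →₀ R) →ₗ[R] (ι →₀ R)} (hA : CM X X a ε A)
    (hT : CM X X b β T) (h : (-1 : R) ^ a.natAbs * β = ε) :
    CM X.prod X (a + b) ε (ofB ((μ.p.compl₂ T) ∘ₗ A)) := by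
  refine ⟨fun p => ?_, fun z => ?_⟩
  · obtain ⟨i, j⟩ := p
    rw [← tens_single, ofB_tens, X.prod_dg]
    have h1 := μ.p_G (hA.1 i) (hT.1 j)
    rwa [show (X.dg i : ℤ) + a + (X.dg j + b) = X.dg i + X.dg j + (a + b) by ring] at h1
  · have h2 : X.e ∘ₗ (ofB ((μ.p.compl₂ T) ∘ₗ A)) =
        ε • ((ofB ((μ.p.compl₂ T) ∘ₗ A)) ∘ₗ X.prod.e) := tens_ext fun i j => by
      simp only [LinearMap.smul_apply, LinearMap.comp_apply, ofB_tens, X.prod_e, map_add,
        LinearMap.compl₂_apply, μ.e_p, hA.2, hT.2, map_smul, smul_add]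
      rw [eta_comm hA.1, map_smul, LinearMap.smul_apply, smul_smul, mul_comm β, h]
    exact LinearMap.congr_fun h2 z

/-- The chain map dual to the basis element `i`. -/
structure Du (X : Cpx R ι) (o i : ι) where
  /-- the map -/
  E : (ι →₀ R) →ₗ[R] (ι →₀ R)
  cm : CM X X (-(X.dg i : ℤ)) ((-1 : R) ^ X.dg i) E
  self : E (single i 1) = single o 1
  ne : ∀ j, X.dg j = X.dg i → j ≠ i → E (single j 1) = 0

theorem exists_du (hX : X.Exact) (ho : X.Uni o) (i : ι) : Nonempty (Du X o i) := by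
  classical
  obtain ⟨h, h1, h2, h3⟩ := liftc X X hX (-(X.dg i : ℤ)) ((-1 : R) ^ X.dg i)
    (fun j => if j = i then single o 1 else 0) (fun j _ => by
      split_ifs
      · exact X.one_G ho
      · exact Submodule.zero_mem _)
  refine ⟨⟨h, ⟨h1, h2⟩, ?_, fun j hj hji => ?_⟩⟩
  · rw [h3 i (by omega), if_pos rfl]
  · rw [h3 j (by omega), if_neg hji]

theorem eq_smul_one (ho : X.Uni o) {x : ι →₀ R} (hx : x ∈ G R X.dg 0) :
    x = x o • single o 1 := by
  ext i
  rw [Finsupp.smul_apply, smul_eq_mul]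
  by_cases hi : i = o
  · rw [hi, Finsupp.single_eq_same, mul_one]
  · rw [Finsupp.single_eq_of_ne hi, mul_zero]
    by_contra h
    exact hi ((ho i).1 (by exact_mod_cast mem_G.1 hx i h))

theorem coprod (hX : X.Exact) (ho : X.Uni o) (E : ∀ i, Du X o i) (i : ι) (S : Finset ι)
    (hS : ∀ j, j ∈ S ↔ X.dg j < X.dg i) :
    ∃ T : ι → ((ι →₀ R) →ₗ[R] (ι →₀ R)),
      (∀ i' ∈ S, ∀ j, T i' (single j 1) ∈ G R X.dg (X.dg j + (-((X.dg i - X.dg i' : ℕ) : ℤ)))) ∧
      ∀ x y, rd R ι ((E i).E (μ.p x y)) = rd R ι (μ.p ((E i).E x) y) +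
        ∑ i' ∈ S, rd R ι (μ.p ((E i').E (eta R (fun j => (X.dg i - X.dg i') * X.dg j) x))
          (T i' y)) := by
  classical
  have hT : ∀ i', ∃ T : (ι →₀ R) →ₗ[R] (ι →₀ R),
      CM X X (-((X.dg i - X.dg i' : ℕ) : ℤ)) ((-1 : R) ^ (X.dg i - X.dg i')) T ∧
      ∀ j, (X.dg j : ℤ) + (-((X.dg i - X.dg i' : ℕ) : ℤ)) = 0 → T (single j 1) =
        ((-1 : R) ^ ((X.dg i - X.dg i') * X.dg i') *
          ((E i).E (μ.p (single i' 1) (single j 1)) o)) • single o 1 := by
    intro i'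
    obtain ⟨h, h1, h2, h3⟩ := liftc X X hX (-((X.dg i - X.dg i' : ℕ) : ℤ))
      ((-1 : R) ^ (X.dg i - X.dg i'))
      (fun j => ((-1 : R) ^ ((X.dg i - X.dg i') * X.dg i') *
          ((E i).E (μ.p (single i' 1) (single j 1)) o)) • single o 1)
      (fun j _ => Submodule.smul_mem _ _ (X.one_G ho))
    exact ⟨h, ⟨h1, h2⟩, h3⟩
  choose T hT1 hT2 using hT
  refine ⟨T, fun i' _ => (hT1 i').1, fun x y => ?_⟩
  have hEq : ∀ i', CM X X (-(X.dg i' : ℤ)) ((-1 : R) ^ (X.dg i' + (X.dg i - X.dg i')))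
      ((E i').E ∘ₗ eta R (fun j => (X.dg i - X.dg i') * X.dg j)) := by
    intro i'
    refine ⟨fun j => ?_, fun z => ?_⟩
    · rw [LinearMap.comp_apply, eta_single, map_smul]
      exact Submodule.smul_mem _ _ ((E i').cm.1 j)
    · have h1 := etq_comm (X.dg i - X.dg i') X.hG z
      rw [show (-1 : ℤ).natAbs = 1 from rfl, mul_one] at h1
      rw [LinearMap.comp_apply, LinearMap.comp_apply, (E i').cm.2, h1, map_smul, smul_smul,
        pow_add, mul_assoc, neg_one_pow_mul_self, mul_one]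
  have cm1 : CM X.prod X (-(X.dg i : ℤ)) ((-1 : R) ^ X.dg i) ((E i).E ∘ₗ μ.m) := by
    refine ⟨fun p => ?_, fun z => ?_⟩
    · have h1 := map_sh (E i).cm.1 (μ.mG p)
      rwa [add_zero] at h1
    · rw [LinearMap.comp_apply, LinearMap.comp_apply, (E i).cm.2, μ.me]
  have cm2 : CM X.prod X (-(X.dg i : ℤ)) ((-1 : R) ^ X.dg i)
      (ofB ((μ.p.compl₂ LinearMap.id) ∘ₗ (E i).E)) := by
    have h1 : CM X X 0 (1 : R) (LinearMap.id : (ι →₀ R) →ₗ[R] (ι →₀ R)) :=
      ⟨fun j => by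
        rw [add_zero]
        exact single_mem_G _ _ _, fun x => by
        rw [one_smul]
        rfl⟩
    have h2 := CM.pr μ (E i).cm h1 (by rw [Int.natAbs_neg, Int.natAbs_natCast, mul_one])
    rwa [add_zero] at h2
  have cm3 : ∀ i' ∈ S, CM X.prod X (-(X.dg i : ℤ)) ((-1 : R) ^ X.dg i)
      (ofB ((μ.p.compl₂ (T i')) ∘ₗ
        ((E i').E ∘ₗ eta R (fun j => (X.dg i - X.dg i') * X.dg j)))) := by
    intro i' hi'
    have h0 := (hS i').1 hi'
    have h2 := CM.pr μ (hEq i') (hT1 i') (by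
      rw [Int.natAbs_neg, Int.natAbs_natCast, pow_add])
    rwa [show -(X.dg i' : ℤ) + -((X.dg i - X.dg i' : ℕ) : ℤ) = -(X.dg i : ℤ) by omega,
      show X.dg i' + (X.dg i - X.dg i') = X.dg i by omega] at h2
  have cm := (cm1.sub cm2).sub (CM.sum S _ cm3)
  have key := null X.prod X hX _ _ _ cm.1 cm.2 (fun p hp => ?_) (tens R ι x y)
  · rw [LinearMap.sub_apply, LinearMap.sub_apply, LinearMap.sum_apply, LinearMap.comp_apply,
      ofB_tens, ← rd_eq_zero, map_sub, map_sub, map_sum, sub_sub, sub_eq_zero] at key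
    rw [μ.p_apply, key]
    refine congrArg₂ (· + ·) rfl (Finset.sum_congr rfl fun i' _ => ?_)
    rw [ofB_tens]
    rfl
  · obtain ⟨i', j⟩ := p
    rw [X.prod_dg] at hp
    rw [← tens_single, LinearMap.sub_apply, LinearMap.sub_apply, LinearMap.sum_apply,
      LinearMap.comp_apply, ofB_tens]
    rcases lt_or_ge (X.dg i') (X.dg i) with hlt | hge
    · -- `|i'| < |i|`
      have z1 : (E i).E (single i' 1) = 0 := G_neg (by omega) ((E i).cm.1 i')
      have z2 : ∑ k ∈ S, (ofB ((μ.p.compl₂ (T k)) ∘ₗ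
          ((E k).E ∘ₗ eta R (fun j => (X.dg i - X.dg k) * X.dg j))))
          (tens R ι (single i' 1) (single j 1)) =
          (E i).E (μ.p (single i' 1) (single j 1)) := by
        rw [Finset.sum_eq_single i']
        · rw [ofB_tens]
          have h1 : ((μ.p.compl₂ (T i')) ∘ₗ
              ((E i').E ∘ₗ eta R (fun j => (X.dg i - X.dg i') * X.dg j))) (single i' 1)
                (single j 1) = μ.p ((E i').E (eta R (fun j => (X.dg i - X.dg i') * X.dg j)
                  (single i' 1))) (T i' (single j 1)) := rfl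
          have h4 : (E i').E ((-1 : R) ^ ((X.dg i - X.dg i') * X.dg i') • single i' 1) =
              (-1 : R) ^ ((X.dg i - X.dg i') * X.dg i') • single o 1 := by
            rw [map_smul, (E i').self]
          have h5 : μ.p (single o 1) (single o 1) = single o 1 := μ.m1
          rw [h1, eta_single, hT2 i' j (by omega), h4, map_smul, map_smul,
            LinearMap.smul_apply, h5, smul_smul, mul_right_comm,
            neg_one_pow_mul_self, one_mul]
          have h2 : (E i).E (μ.p (single i' 1) (single j 1)) ∈ G R X.dg 0 := by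
            have h3 := map_sh (E i).cm.1
              (μ.p_G (single_mem_G (R := R) X.dg i' 1) (single_mem_G (R := R) X.dg j 1))
            rwa [show (X.dg i' : ℤ) + X.dg j + -(X.dg i : ℤ) = 0 by omega] at h3
          exact (eq_smul_one ho h2).symm
        · intro k hk hki
          rw [ofB_tens]
          have h1 : ((μ.p.compl₂ (T k)) ∘ₗ
              ((E k).E ∘ₗ eta R (fun j => (X.dg i - X.dg k) * X.dg j))) (single i' 1)
                (single j 1) = μ.p ((E k).E (eta R (fun j => (X.dg i - X.dg k) * X.dg j)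
                  (single i' 1))) (T k (single j 1)) := rfl
          rw [h1, eta_single, map_smul]
          rcases lt_trichotomy (X.dg k) (X.dg i') with h2 | h2 | h2
          · have h3 : T k (single j 1) = 0 := G_neg (by omega) ((hT1 k).1 j)
            rw [h3, map_zero]
          · rw [(E k).ne i' h2.symm (fun h => hki h.symm), smul_zero, map_zero,
              LinearMap.zero_apply]
          · have h3 : (E k).E (single i' 1) = 0 := G_neg (by omega) ((E k).cm.1 i')
            rw [h3, smul_zero, map_zero, LinearMap.zero_apply]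
        · intro h
          exact absurd ((hS i').2 hlt) h
      rw [z2]
      have z3 : (μ.p.compl₂ LinearMap.id ∘ₗ (E i).E) (single i' 1) (single j 1) =
          μ.p ((E i).E (single i' 1)) (single j 1) := rfl
      rw [z3, z1, map_zero, LinearMap.zero_apply, sub_zero, ← μ.p_apply, sub_self]
      exact Submodule.zero_mem _
    · -- `|i'| = |i|`
      have hj : j = o := (ho j).1 (by omega)
      have z2 : ∑ k ∈ S, (ofB ((μ.p.compl₂ (T k)) ∘ₗ
          ((E k).E ∘ₗ eta R (fun j => (X.dg i - X.dg k) * X.dg j))))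
          (tens R ι (single i' 1) (single j 1)) = 0 := by
        refine Finset.sum_eq_zero fun k hk => ?_
        have h0 := (hS k).1 hk
        rw [ofB_tens]
        have h1 : ((μ.p.compl₂ (T k)) ∘ₗ
            ((E k).E ∘ₗ eta R (fun j => (X.dg i - X.dg k) * X.dg j))) (single i' 1)
              (single j 1) = μ.p ((E k).E (eta R (fun j => (X.dg i - X.dg k) * X.dg j)
                (single i' 1))) (T k (single j 1)) := rfl
        have h3 : T k (single j 1) = 0 := G_neg (by omega) ((hT1 k).1 j)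
        rw [h1, h3, map_zero]
      rw [z2, sub_zero, hj]
      have z3 : (μ.p.compl₂ LinearMap.id ∘ₗ (E i).E) (single i' 1) (single o 1) =
          μ.p ((E i).E (single i' 1)) (single o 1) := rfl
      rw [z3, ← μ.p_apply, ← rd_eq_zero, map_sub, sub_eq_zero, rd_eq (μ.p_one hX ho _)]
      exact kill_congr (rd R ι ∘ₗ (E i).E) (rd_eq (μ.p_one hX ho _))

theorem small_E (hX : X.Exact) (ho : X.Uni o) (E : ∀ i, Du X o i) (S : ℕ → Finset ι)
    (hS : ∀ n j, j ∈ S n ↔ X.dg j < n) {ℓ : ℤ → ℕ∞} {w : ι →₀ R} {n : ℕ}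
    (hw : w ∈ G R X.dg n) (h : Sm X.dg ℓ (rd R ι ∘ₗ μ.p w)) (i : ι) :
    Sm X.dg ℓ (rd R ι ∘ₗ μ.p ((E i).E w)) := by
  obtain ⟨N, hN⟩ : ∃ N, X.dg i = N := ⟨_, rfl⟩
  induction N using Nat.strong_induction_on generalizing i with
  | _ N ih =>
    obtain ⟨T, hT, hT'⟩ := coprod μ hX ho E i (S (X.dg i)) (hS (X.dg i))
    have h1 : rd R ι ∘ₗ μ.p ((E i).E w) = bar (E i).E ∘ₗ (rd R ι ∘ₗ μ.p w) +
        -∑ i' ∈ S (X.dg i), ((-1 : R) ^ ((X.dg i - X.dg i') * n)) •
          ((rd R ι ∘ₗ μ.p ((E i').E w)) ∘ₗ T i') := by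
      refine LinearMap.ext fun y => ?_
      rw [LinearMap.add_apply, LinearMap.neg_apply, LinearMap.comp_apply, LinearMap.comp_apply,
        LinearMap.comp_apply, bar_rd, hT' w y, LinearMap.sum_apply]
      have h2 : ∑ i' ∈ S (X.dg i), rd R ι (μ.p ((E i').E
          (eta R (fun j => (X.dg i - X.dg i') * X.dg j) w)) (T i' y)) =
          ∑ i' ∈ S (X.dg i), (((-1 : R) ^ ((X.dg i - X.dg i') * n)) •
            ((rd R ι ∘ₗ μ.p ((E i').E w)) ∘ₗ T i')) y := by
        refine Finset.sum_congr rfl fun i' _ => ?_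
        rw [etq_G _ hw, map_smul, map_smul, LinearMap.smul_apply, map_smul]
        rfl
      rw [h2, add_neg_cancel_right]
    rw [h1]
    refine (h.post _).add (Sm.sum _ _ fun i' hi' => ?_).neg
    have h3 := (hS _ _).1 hi'
    exact ((ih (X.dg i') (by omega) i' rfl).pre (hT i' hi')).smul _

theorem small_rd (hX : X.Exact) (ho : X.Uni o) (S : ℕ → Finset ι)
    (hS : ∀ n j, j ∈ S n ↔ X.dg j < n) {ℓ : ℤ → ℕ∞} {w : ι →₀ R} {i : ι}
    (hw : w ∈ G R X.dg (X.dg i)) (hu : IsUnit (w i)) (h : Sm X.dg ℓ (rd R ι ∘ₗ μ.p w)) :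
    Sm X.dg ℓ (rd R ι) := by
  classical
  let E : ∀ i, Du X o i := fun i => (exists_du hX ho i).some
  have h1 := small_E μ hX ho E S hS hw h i
  have h2 : (E i).E w = w i • single o 1 := by
    have h3 := map_G ((E i).E - (Finsupp.lapply i).smulRight (single o (1 : R)))
      (⊥ : Submodule R (ι →₀ R)) (g := X.dg i) (fun j hj => by
        rw [Submodule.mem_bot, LinearMap.sub_apply, LinearMap.smulRight_apply,
          Finsupp.lapply_apply]
        by_cases hji : j = i
        · rw [hji, (E i).self, Finsupp.single_eq_same, one_smul, sub_self]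
        · rw [(E i).ne j (by omega) hji, Finsupp.single_eq_of_ne (fun h => hji h.symm), zero_smul,
            sub_zero]) hw
    rw [Submodule.mem_bot, LinearMap.sub_apply] at h3
    exact sub_eq_zero.1 h3
  obtain ⟨v, hv⟩ := hu.exists_left_inv
  have h3 := h1.smul v
  have h4 : v • (rd R ι ∘ₗ μ.p ((E i).E w)) = rd R ι := by
    refine LinearMap.ext fun y => ?_
    rw [LinearMap.smul_apply, LinearMap.comp_apply, h2, map_smul, LinearMap.smul_apply, map_smul,
      smul_smul, hv, one_smul]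
    exact rd_eq (μ.one_p hX ho y)
  rwa [h4] at h3

/-- If `u` is nonzero and homogeneous, and the left multiplication by the lifts of the values of `u`
is small, then the reduction is small. -/
theorem small_rd_of (hX : X.Exact) (ho : X.Uni o) (S : ℕ → Finset ι)
    (hS : ∀ n j, j ∈ S n ↔ X.dg j < n) {ℓ : ℤ → ℕ∞} (u : (ι →₀ R) →ₗ[R] (ι →₀ ResidueField R))
    (r : ℤ) (hhom : ∀ s j, u (single s 1) j ≠ 0 → (X.dg j : ℤ) = X.dg s + r) (hne : u ≠ 0)
    (hsm : ∀ s w, rd R ι w = u (single s 1) → Sm X.dg ℓ (rd R ι ∘ₗ μ.p w)) :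
    Sm X.dg ℓ (rd R ι) := by
  classical
  obtain ⟨s, hs⟩ : ∃ s, u (single s 1) ≠ 0 := by
    by_contra hcon
    push Not at hcon
    exact hne (lin_ext fun i => by rw [hcon i]; rfl)
  obtain ⟨i, hi⟩ : ∃ i, u (single s 1) i ≠ 0 := by
    by_contra hcon
    push Not at hcon
    exact hs (Finsupp.ext fun i => by rw [hcon i]; rfl)
  have hc : ∀ a : ResidueField R, ∃ b : R, residue R b = a ∧ (a = 0 → b = 0) := by
    intro a
    by_cases ha : a = 0
    · exact ⟨0, by rw [ha, map_zero], fun _ => rfl⟩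
    · obtain ⟨b, hb⟩ := residue_surjective a
      exact ⟨b, hb, fun h => absurd h ha⟩
  choose c hc1 hc2 using hc
  let w : ι →₀ R := Finsupp.mapRange c (hc2 0 rfl) (u (single s 1))
  have hw : rd R ι w = u (single s 1) := by
    ext j
    rw [rd_apply, Finsupp.mapRange_apply, hc1]
  have hwG : w ∈ G R X.dg (X.dg i) := by
    rw [mem_G]
    intro j hj
    have h2 : u (single s 1) j ≠ 0 := fun h0 => hj (by
      rw [Finsupp.mapRange_apply, hc2 _ h0])
    rw [hhom s j h2, hhom s i hi]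
  have hu : IsUnit (w i) := by
    by_contra hcon
    have h2 : residue R (w i) = 0 := (residue_eq_zero_iff _).2 ((mem_maximalIdeal _).2 hcon)
    apply hi
    rw [← hw, rd_apply]
    exact h2
  exact small_rd μ hX ho S hS hwG hu (hsm s w hw)

theorem d2_hom {χ : maximalIdeal R →ₗ[R] ResidueField R} {g : ℤ} {x : ι →₀ R}
    (hx : x ∈ G R X.dg g) (j : ι) (hj : X.d2 χ x j ≠ 0) : (X.dg j : ℤ) = g + (-1) := by
  by_contra hcon
  apply hj
  have z2 : X.e x j = 0 := by
    by_contra h2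
    exact hcon (mem_G.1 (X.eG hx) j h2)
  rw [X.d2_single]
  have z3 : (⟨X.e x j, X.em x j⟩ : maximalIdeal R) = 0 := Subtype.ext z2
  rw [z3, map_zero]

/-- The main theorem on a resolution: if `χ` is not central then the reduction is small. -/
theorem De.small_rd {χ : maximalIdeal R →ₗ[R] ResidueField R} (Δ : De X χ) (hX : X.Exact)
    (ho : X.Uni o) (S : ℕ → Finset ι) (hS : ∀ n j, j ∈ S n ↔ X.dg j < n) {y : R}
    (hy : y ∈ maximalIdeal R) (h1 : χ ⟨y, hy⟩ = 1) {ℓ : ℤ → ℕ∞} (hT : Sm X.dg ℓ Δ.T)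
    (hne : Δ.δ ≠ 0) : Sm X.dg ℓ (rd R ι) := by
  obtain ⟨μ⟩ := exists_pr hX ho
  have hδ := Δ.δ_small hX ho hy h1 hT
  refine small_rd_of μ hX ho S hS Δ.δ (-1) (fun s j hj => ?_) hne
    fun s w hw => Δ.small_p μ hX ho hδ s w hw
  by_contra hcon
  apply hj
  have z1 : Δ.D (single s 1) j = 0 := by
    by_contra h2
    exact hcon (mem_G.1 (Δ.DG s) j h2)
  have z2 : X.d2 χ (single s 1) j = 0 := by
    by_contra h2
    exact hcon (d2_hom (single_mem_G _ _ _) j h2)
  rw [Δ.δ_apply, Finsupp.sub_apply, rd_apply, z1, z2, map_zero, sub_zero]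

/-- The case of a central `χ` with nonzero square. -/
theorem De.small_rd' {χ : maximalIdeal R →ₗ[R] ResidueField R} (Δ : De X χ) (hX : X.Exact)
    (ho : X.Uni o) (S : ℕ → Finset ι) (hS : ∀ n j, j ∈ S n ↔ X.dg j < n) {ℓ : ℤ → ℕ∞}
    (hT : Sm X.dg ℓ Δ.T) (hδ : Δ.δ = 0) (hne : Δ.T ≠ 0) : Sm X.dg ℓ (rd R ι) := by
  obtain ⟨μ⟩ := exists_pr hX ho
  have hT1 : ∀ x, Δ.T x = rd R ι (Δ.D (Δ.D x)) := by
    intro x
    have h := LinearMap.congr_fun hδ (Δ.D x)
    rw [Δ.δ_apply, LinearMap.zero_apply, sub_eq_zero] at h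
    rw [h, Δ.T_apply]
  have hT2 : ∀ x y, Δ.T (μ.p x y) = bar (μ.p.flip y) (Δ.T x) + bar (μ.p x) (Δ.T y) := by
    intro x y
    have h1 : rd R ι (Δ.D (μ.p x y)) =
        rd R ι (μ.p (Δ.D x) y + μ.p (eta R X.dg x) (Δ.D y)) := by
      rw [map_add]
      exact Δ.D_p μ hX ho x y
    have h2 := kill_congr (rd R ι ∘ₗ Δ.D) h1
    rw [LinearMap.comp_apply, LinearMap.comp_apply, map_add, map_add, Δ.D_p μ hX ho,
      Δ.D_p μ hX ho, Δ.eta_D, eta_eta, map_neg, LinearMap.neg_apply, map_neg] at h2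
    rw [hT1, h2, hT1, hT1, bar_rd, bar_rd, LinearMap.flip_apply]
    abel
  refine small_rd_of μ hX ho S hS Δ.T (-2) (fun s j hj => ?_) hne fun s w hw => ?_
  · have h1 := d2_hom (χ := χ) (Δ.DG s) j hj
    rw [h1]
    ring
  · have h : rd R ι ∘ₗ μ.p w = Δ.T ∘ₗ μ.p (single s 1) + -(bar (μ.p (single s 1)) ∘ₗ Δ.T) := by
      refine LinearMap.ext fun y => ?_
      rw [LinearMap.add_apply, LinearMap.neg_apply, LinearMap.comp_apply, LinearMap.comp_apply,
        LinearMap.comp_apply, hT2, ← hw, bar_rd, LinearMap.flip_apply]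
      abel
    rw [h]
    refine (hT.pre (r := X.dg s) fun j => ?_).add (hT.post _).neg
    have h2 := μ.p_G (single_mem_G (R := R) X.dg s 1) (single_mem_G (R := R) X.dg j 1)
    rwa [add_comm] at h2

end

end Pool.Agent.Lib.MP_f0b71a_alC
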