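import Pool.Agent.Lib.MP_f0b71a_alC.Ten

/-!
# The product on a minimal resolution, the chain map over `χ`
-/

universe u

namespace Pool.Agent.Lib.MP_f0b71a_alC

open IsLocalRing Finsupp Pool.Agent.Lib.MP_f0b71a_al

noncomputable section

variable {R : Type u} [CommRing R] [IsLocalRing R] {ι : Type}

/-- `o` is the only basis element of degree `0`. -/
def Cpx.Uni (X : Cpx R ι) (o : ι) : Prop := ∀ i, X.dg i = 0 ↔ i = o

theorem Cpx.one_G {X : Cpx R ι} {o : ι} (ho : X.Uni o) :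
    (single o 1 : ι →₀ R) ∈ G R X.dg 0 := by
  have h := single_mem_G (R := R) X.dg o 1
  rwa [(ho o).2 rfl, Nat.cast_zero] at h

theorem Cpx.e_one {X : Cpx R ι} {o : ι} (ho : X.Uni o) : X.e (single o 1) = 0 :=
  G_neg (by omega) (X.eG (X.one_G ho))

theorem Cpx.eta_one {X : Cpx R ι} {o : ι} (ho : X.Uni o) :
    eta R X.dg (single o 1) = single o 1 := by
  rw [eta_single, (ho o).2 rfl, pow_zero, one_smul]

/-- A chain map `X ⊗ X → X` with `1 ⊗ 1 ↦ 1`. -/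
structure Pr (X : Cpx R ι) (o : ι) where
  /-- the map -/
  m : (ι × ι →₀ R) →ₗ[R] (ι →₀ R)
  mG : ∀ p, m (single p 1) ∈ G R X.dg (X.prod.dg p + 0)
  me : ∀ z, X.e (m z) = m (X.prod.e z)
  m1 : m (tens R ι (single o 1) (single o 1)) = single o 1

theorem exists_pr {X : Cpx R ι} (hX : X.Exact) {o : ι} (ho : X.Uni o) : Nonempty (Pr X o) := by
  obtain ⟨h, h1, h2, h3⟩ := liftc X.prod X hX 0 1 (fun _ => single o 1)
    (fun _ _ => X.one_G ho)
  refine ⟨⟨h, h1, fun z => by rw [h2, one_smul], ?_⟩⟩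
  rw [tens_single]
  refine h3 (o, o) ?_
  rw [X.prod_dg, (ho o).2 rfl]
  simp

variable {X : Cpx R ι} {o : ι} (μ : Pr X o)

/-- The product of two elements. -/
def Pr.p : (ι →₀ R) →ₗ[R] (ι →₀ R) →ₗ[R] (ι →₀ R) := (tens R ι).compr₂ μ.m

theorem Pr.p_apply (x y : ι →₀ R) : μ.p x y = μ.m (tens R ι x y) := rfl

theorem Pr.p_G {a b : ℤ} {x y : ι →₀ R} (hx : x ∈ G R X.dg a) (hy : y ∈ G R X.dg b) :
    μ.p x y ∈ G R X.dg (a + b) := by
  have h := map_sh μ.mG (tens_G hx hy)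
  rwa [add_zero] at h

theorem Pr.e_p (x y : ι →₀ R) :
    X.e (μ.p x y) = μ.p (X.e x) y + μ.p (eta R X.dg x) (X.e y) := by
  rw [μ.p_apply, μ.me, X.prod_e, map_add]
  rfl

theorem Pr.p_mE_left {x : ι →₀ R} (hx : x ∈ mE R ι) (y : ι →₀ R) : μ.p x y ∈ mE R ι :=
  map_mE (μ.p.flip y) hx

theorem Pr.p_mE_right (x : ι →₀ R) {y : ι →₀ R} (hy : y ∈ mE R ι) : μ.p x y ∈ mE R ι :=
  map_mE (μ.p x) hy

theorem Pr.one_p (hX : X.Exact) (ho : X.Uni o) (y : ι →₀ R) :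
    μ.p (single o 1) y - y ∈ mE R ι := by
  refine null X X hX 0 1 (μ.p (single o 1) - LinearMap.id) (fun j => ?_) (fun x => ?_)
    (fun j hj => ?_) y
  · have h := μ.p_G (X.one_G ho) (single_mem_G (R := R) X.dg j 1)
    rw [zero_add] at h
    rw [add_zero]
    exact Submodule.sub_mem _ h (single_mem_G _ _ _)
  · rw [LinearMap.sub_apply, LinearMap.sub_apply, map_sub, μ.e_p, X.e_one ho, map_zero,
      LinearMap.zero_apply, zero_add, X.eta_one ho, one_smul]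
    rfl
  · have h1 : j = o := (ho j).1 (by omega)
    rw [h1, LinearMap.sub_apply, μ.p_apply, μ.m1]
    have h2 : (single o 1 : ι →₀ R) - LinearMap.id (R := R) (single o 1) = 0 := sub_self _
    rw [h2]
    exact Submodule.zero_mem _

theorem Pr.p_one (hX : X.Exact) (ho : X.Uni o) (x : ι →₀ R) :
    μ.p x (single o 1) - x ∈ mE R ι := by
  refine null X X hX 0 1 (μ.p.flip (single o 1) - LinearMap.id) (fun j => ?_) (fun x => ?_)
    (fun j hj => ?_) x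
  · have h := μ.p_G (single_mem_G (R := R) X.dg j 1) (X.one_G ho)
    rw [add_zero] at h ⊢
    exact Submodule.sub_mem _ h (single_mem_G _ _ _)
  · rw [LinearMap.sub_apply, LinearMap.sub_apply, map_sub, LinearMap.flip_apply,
      LinearMap.flip_apply, μ.e_p, X.e_one ho, map_zero, add_zero, one_smul]
    rfl
  · have h1 : j = o := (ho j).1 (by omega)
    rw [h1, LinearMap.sub_apply, LinearMap.flip_apply, μ.p_apply, μ.m1]
    have h2 : (single o 1 : ι →₀ R) - LinearMap.id (R := R) (single o 1) = 0 := sub_self _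
    rw [h2]
    exact Submodule.zero_mem _

/-! ### The second differential -/

/-- The differential with values in `𝔪 X`. -/
def Cpx.ec (X : Cpx R ι) : (ι →₀ R) →ₗ[R] mE R ι := LinearMap.codRestrict (mE R ι) X.e X.em

/-- `χ` applied to the coefficients of the differential. -/
def Cpx.d2 (X : Cpx R ι) (χ : maximalIdeal R →ₗ[R] ResidueField R) :
    (ι →₀ R) →ₗ[R] (ι →₀ ResidueField R) := cof χ ∘ₗ X.ec

variable (χ : maximalIdeal R →ₗ[R] ResidueField R)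

theorem Cpx.d2_apply (x : ι →₀ R) : X.d2 χ x = cof χ ⟨X.e x, X.em x⟩ := rfl

theorem Cpx.d2_single (x : ι →₀ R) (i : ι) : X.d2 χ x i = χ ⟨X.e x i, X.em x i⟩ := rfl

theorem cof_congr {x y : mE R ι} (h : x.1 = y.1) : cof χ x = cof χ y :=
  congrArg (cof χ) (Subtype.ext h)

theorem cof_sub' {x y : ι →₀ R} (hx : x ∈ mE R ι) (hy : y ∈ mE R ι) :
    cof χ ⟨x - y, Submodule.sub_mem _ hx hy⟩ = cof χ ⟨x, hx⟩ - cof χ ⟨y, hy⟩ :=
  map_sub (cof χ) ⟨x, hx⟩ ⟨y, hy⟩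

theorem cof_add' {x y : ι →₀ R} (hx : x ∈ mE R ι) (hy : y ∈ mE R ι) :
    cof χ ⟨x + y, Submodule.add_mem _ hx hy⟩ = cof χ ⟨x, hx⟩ + cof χ ⟨y, hy⟩ :=
  map_add (cof χ) ⟨x, hx⟩ ⟨y, hy⟩

theorem Pr.d2_p (x y : ι →₀ R) :
    X.d2 χ (μ.p x y) = bar (μ.p.flip y) (X.d2 χ x) + bar (μ.p (eta R X.dg x)) (X.d2 χ y) := by
  have h1 : X.d2 χ (μ.p x y) = cof χ ⟨μ.p (X.e x) y + μ.p (eta R X.dg x) (X.e y),
      Submodule.add_mem _ (μ.p_mE_left (X.em x) y) (μ.p_mE_right _ (X.em y))⟩ :=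
    cof_congr χ (μ.e_p x y)
  rw [h1, cof_add' χ (μ.p_mE_left (X.em x) y) (μ.p_mE_right _ (X.em y))]
  have h2 := cof_map χ (μ.p.flip y) ⟨X.e x, X.em x⟩
  have h3 := cof_map χ (μ.p (eta R X.dg x)) ⟨X.e y, X.em y⟩
  exact congrArg₂ (· + ·) h2 h3

/-! ### Homotopies and the chain map over `χ` -/

/-- A homotopy for the multiplication by `y`. -/
structure Ht (X : Cpx R ι) (y : R) where
  /-- the map -/
  σ : (ι →₀ R) →ₗ[R] (ι →₀ R)
  σG : ∀ i, σ (single i 1) ∈ G R X.dg (X.dg i + 1)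
  eσ : ∀ x, X.e (σ x) = y • x - σ (X.e x)

theorem exists_ht (hX : X.Exact) {y : R} (hy : y ∈ maximalIdeal R) : Nonempty (Ht X y) := by
  obtain ⟨h, h1, h2, -⟩ := lift X X hX 1 (-1) (y • LinearMap.id)
    (fun j => by
      rw [sub_self, add_zero]
      exact Submodule.smul_mem _ _ (single_mem_G _ _ _))
    (fun x => by
      rw [LinearMap.smul_apply, LinearMap.smul_apply, LinearMap.id_apply, LinearMap.id_apply,
        map_smul, neg_one_smul, add_neg_cancel])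
    (fun j _ => smul_mem_mE hy _)
  exact ⟨⟨h, h1, fun x => by rw [h2, neg_one_smul, ← sub_eq_add_neg]; rfl⟩⟩

/-- A chain map of degree `-1` over `χ`. -/
structure De (X : Cpx R ι) (χ : maximalIdeal R →ₗ[R] ResidueField R) where
  /-- the map -/
  D : (ι →₀ R) →ₗ[R] (ι →₀ R)
  DG : ∀ i, D (single i 1) ∈ G R X.dg (X.dg i + (-1))
  eD : ∀ x, X.e (D x) = -D (X.e x)
  res : ∀ i, X.dg i = 1 → rd R ι (D (single i 1)) = X.d2 χ (single i 1)

variable {χ} (Δ : De X χ)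

theorem De.res' {x : ι →₀ R} (hx : x ∈ G R X.dg 1) : rd R ι (Δ.D x) = X.d2 χ x := by
  have h := map_G (rd R ι ∘ₗ Δ.D - X.d2 χ) (⊥ : Submodule R (ι →₀ ResidueField R)) (g := 1)
    (fun j hj => by
      rw [Submodule.mem_bot, LinearMap.sub_apply, LinearMap.comp_apply, Δ.res j (by omega),
        sub_self]) hx
  rw [Submodule.mem_bot, LinearMap.sub_apply] at h
  exact sub_eq_zero.1 h

theorem De.D_one (ho : X.Uni o) : Δ.D (single o 1) = 0 :=
  G_neg (by rw [(ho o).2 rfl]; norm_num) (Δ.DG o)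

theorem De.eta_D (x : ι →₀ R) : Δ.D (eta R X.dg x) = -eta R X.dg (Δ.D x) := by
  have h := eta_comm Δ.DG x
  rw [show (-1 : ℤ).natAbs = 1 from rfl, pow_one, neg_one_smul] at h
  rw [h, neg_neg]

theorem Ht.d2_σ {y : R} (hy : y ∈ maximalIdeal R) (h1 : χ ⟨y, hy⟩ = 1) (H : Ht X y)
    (x : ι →₀ R) : X.d2 χ (H.σ x) = rd R ι x - bar H.σ (X.d2 χ x) := by
  have h2 : X.d2 χ (H.σ x) = cof χ ⟨y • x - H.σ (X.e x),
      Submodule.sub_mem _ (smul_mem_mE hy x) (map_mE H.σ (X.em x))⟩ := cof_congr χ (H.eσ x)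
  rw [h2, cof_sub' χ (smul_mem_mE hy x) (map_mE H.σ (X.em x)),
    cof_smul χ hy (c := 1) (by rw [h1, map_one]) x, one_smul]
  have h3 := cof_map χ H.σ ⟨X.e x, X.em x⟩
  exact congrArg₂ (· - ·) rfl h3

theorem De.rd_comm (hX : X.Exact) (ho : X.Uni o) {y : R} (hy : y ∈ maximalIdeal R)
    (h1 : χ ⟨y, hy⟩ = 1) (H : Ht X y) (x : ι →₀ R) :
    rd R ι (Δ.D (H.σ x)) = rd R ι (x - H.σ (Δ.D x)) := by
  refine rd_eq ?_
  have h := null X X hX 0 1 (Δ.D ∘ₗ H.σ - (LinearMap.id - H.σ ∘ₗ Δ.D)) (fun j => ?_) (fun x => ?_)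
    (fun j hj => ?_) x
  · exact h
  · rw [add_zero]
    refine Submodule.sub_mem _ ?_ (Submodule.sub_mem _ (single_mem_G _ _ _) ?_)
    · have h2 := map_sh Δ.DG (H.σG j)
      rwa [show (X.dg j : ℤ) + 1 + (-1) = X.dg j by ring] at h2
    · have h2 := map_sh H.σG (Δ.DG j)
      rwa [show (X.dg j : ℤ) + (-1) + 1 = X.dg j by ring] at h2
  · simp only [LinearMap.sub_apply, LinearMap.comp_apply, LinearMap.id_apply, map_sub, Δ.eD,
      H.eσ, map_smul, map_neg, one_smul, neg_sub]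
    abel
  · have h2 : j = o := (ho j).1 (by omega)
    rw [h2, LinearMap.sub_apply, LinearMap.sub_apply, LinearMap.comp_apply, LinearMap.comp_apply,
      Δ.D_one ho, map_zero, sub_zero, LinearMap.id_apply, ← rd_eq_zero, map_sub, sub_eq_zero]
    have h3 := H.σG o
    rw [(ho o).2 rfl, Nat.cast_zero, zero_add] at h3
    rw [Δ.res' h3, H.d2_σ hy h1, X.d2_apply]
    have h4 : cof χ ⟨X.e (single o 1), X.em (single o 1)⟩ = 0 := by
      rw [← map_zero (cof (J := ι) χ)]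
      exact cof_congr χ (X.e_one ho)
    rw [h4, map_zero, sub_zero]

/-- The operator `x ↦ [χ, x]` on `Tor(k, k)`. -/
def De.δ : (ι →₀ R) →ₗ[R] (ι →₀ ResidueField R) := rd R ι ∘ₗ Δ.D - X.d2 χ

/-- The operator `x ↦ χ x χ` on `Tor(k, k)`. -/
def De.T : (ι →₀ R) →ₗ[R] (ι →₀ ResidueField R) := X.d2 χ ∘ₗ Δ.D

theorem De.δ_apply (x : ι →₀ R) : Δ.δ x = rd R ι (Δ.D x) - X.d2 χ x := rfl

theorem De.T_apply (x : ι →₀ R) : Δ.T x = X.d2 χ (Δ.D x) := rfl

theorem De.δ_eq (hX : X.Exact) (ho : X.Uni o) {y : R} (hy : y ∈ maximalIdeal R)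
    (h1 : χ ⟨y, hy⟩ = 1) (H : Ht X y) : Δ.δ = bar H.σ ∘ₗ Δ.T + -(Δ.T ∘ₗ H.σ) := by
  refine LinearMap.ext fun x => ?_
  rw [Δ.δ_apply, LinearMap.add_apply, LinearMap.neg_apply, LinearMap.comp_apply,
    LinearMap.comp_apply, Δ.T_apply, Δ.T_apply, kill_congr _ (Δ.rd_comm hX ho hy h1 H x), map_sub,
    H.d2_σ hy h1]
  abel

theorem De.δ_small (hX : X.Exact) (ho : X.Uni o) {y : R} (hy : y ∈ maximalIdeal R)
    (h1 : χ ⟨y, hy⟩ = 1) {ℓ : ℤ → ℕ∞} (hT : Sm X.dg ℓ Δ.T) : Sm X.dg ℓ Δ.δ := by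
  obtain ⟨H⟩ := exists_ht hX hy
  rw [Δ.δ_eq hX ho hy h1 H]
  exact (hT.post _).add (hT.pre H.σG).neg

/-- The bilinear map `(x, y) ↦ D x ⊗ y + η x ⊗ D y`. -/
def De.B : (ι →₀ R) →ₗ[R] (ι →₀ R) →ₗ[R] (ι × ι →₀ R) :=
  tens R ι ∘ₗ Δ.D + ((tens R ι).compl₂ Δ.D) ∘ₗ eta R X.dg

theorem De.B_apply (x y : ι →₀ R) :
    Δ.B x y = tens R ι (Δ.D x) y + tens R ι (eta R X.dg x) (Δ.D y) := rfl

theorem De.D_p (hX : X.Exact) (ho : X.Uni o) (x y : ι →₀ R) :
    rd R ι (Δ.D (μ.p x y)) =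
      rd R ι (μ.p (Δ.D x) y) + rd R ι (μ.p (eta R X.dg x) (Δ.D y)) := by
  have h := null X.prod X hX (-1) (-1) (Δ.D ∘ₗ μ.m - μ.m ∘ₗ ofB Δ.B) (fun p => ?_) (fun z => ?_)
    (fun p hp => ?_) (tens R ι x y)
  · rw [LinearMap.sub_apply, LinearMap.comp_apply, LinearMap.comp_apply, ofB_tens, Δ.B_apply,
      ← rd_eq_zero, map_sub, map_add, map_add, sub_eq_zero] at h
    exact h
  · obtain ⟨i, j⟩ := p
    rw [LinearMap.sub_apply, LinearMap.comp_apply, LinearMap.comp_apply]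
    refine Submodule.sub_mem _ ?_ ?_
    · have h2 := map_sh Δ.DG (μ.mG (i, j))
      rwa [add_zero] at h2
    · rw [← tens_single, ofB_tens, Δ.B_apply, eta_single, map_smul, LinearMap.smul_apply]
      have h3 := tens_G (Δ.DG i) (single_mem_G (R := R) X.dg j 1)
      have h4 := tens_G (single_mem_G (R := R) X.dg i 1) (Δ.DG j)
      rw [show (X.dg i : ℤ) + (X.dg j + (-1)) = X.dg i + (-1) + X.dg j by ring] at h4
      have h5 := map_sh μ.mG (Submodule.add_mem _ h3 (Submodule.smul_mem _ ((-1) ^ X.dg i) h4))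
      rw [X.prod_dg]
      rwa [show (X.dg i : ℤ) + (-1) + X.dg j + 0 = X.dg i + X.dg j + (-1) by ring] at h5
  · have h2 : X.e ∘ₗ (Δ.D ∘ₗ μ.m - μ.m ∘ₗ ofB Δ.B) =
        (-1 : R) • ((Δ.D ∘ₗ μ.m - μ.m ∘ₗ ofB Δ.B) ∘ₗ X.prod.e) := tens_ext fun i j => by
      simp only [LinearMap.smul_apply, LinearMap.comp_apply, LinearMap.sub_apply, ofB_tens,
        Δ.B_apply, X.prod_e, map_sub, map_add, Δ.eD, μ.me, map_neg, LinearMap.neg_apply,
        X.eta_e, Δ.eta_D, eta_eta, neg_one_smul, neg_sub]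
      abel
    exact LinearMap.congr_fun h2 z
  · obtain ⟨i, j⟩ := p
    rw [X.prod_dg] at hp
    rw [← tens_single, LinearMap.sub_apply, LinearMap.comp_apply, LinearMap.comp_apply, ofB_tens,
      Δ.B_apply, map_add]
    rcases Nat.eq_zero_or_pos (X.dg i) with hi | hi
    · have h2 : i = o := (ho i).1 hi
      rw [h2, Δ.D_one ho, map_zero, LinearMap.zero_apply, map_zero, zero_add, X.eta_one ho,
        ← rd_eq_zero, map_sub, sub_eq_zero]
      have h3 := μ.one_p hX ho (single j 1)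
      have h4 := μ.one_p hX ho (Δ.D (single j 1))
      rw [μ.p_apply] at h3 h4
      rw [rd_eq h4]
      exact kill_congr (rd R ι ∘ₗ Δ.D) (rd_eq h3)
    · have h2 : j = o := (ho j).1 (by omega)
      rw [h2, Δ.D_one ho, map_zero, map_zero, add_zero, ← rd_eq_zero, map_sub, sub_eq_zero]
      have h3 := μ.p_one hX ho (single i 1)
      have h4 := μ.p_one hX ho (Δ.D (single i 1))
      rw [μ.p_apply] at h3 h4
      rw [rd_eq h4]
      exact kill_congr (rd R ι ∘ₗ Δ.D) (rd_eq h3)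

theorem De.δ_p (hX : X.Exact) (ho : X.Uni o) (x y : ι →₀ R) :
    Δ.δ (μ.p x y) = bar (μ.p.flip y) (Δ.δ x) + bar (μ.p (eta R X.dg x)) (Δ.δ y) := by
  rw [Δ.δ_apply, Δ.δ_apply, Δ.δ_apply, Δ.D_p μ hX ho, μ.d2_p χ, map_sub, map_sub, bar_rd, bar_rd,
    LinearMap.flip_apply]
  abel

/-- The left multiplication by `w` is small modulo `𝔪` if `w = δ s` modulo `𝔪`. -/
theorem De.small_p (hX : X.Exact) (ho : X.Uni o) {ℓ : ℤ → ℕ∞} (hδ : Sm X.dg ℓ Δ.δ) (s : ι)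
    (w : ι →₀ R) (hw : rd R ι w = Δ.δ (single s 1)) : Sm X.dg ℓ (rd R ι ∘ₗ μ.p w) := by
  have h : rd R ι ∘ₗ μ.p w = Δ.δ ∘ₗ μ.p (single s 1) +
      -(bar (μ.p (eta R X.dg (single s 1))) ∘ₗ Δ.δ) := by
    refine LinearMap.ext fun y => ?_
    rw [LinearMap.add_apply, LinearMap.neg_apply, LinearMap.comp_apply, LinearMap.comp_apply,
      LinearMap.comp_apply, Δ.δ_p μ hX ho, ← hw, bar_rd, LinearMap.flip_apply]
    abel
  rw [h]
  refine (hδ.pre (r := X.dg s) fun j => ?_).add (hδ.post _).neg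
  have h2 := μ.p_G (single_mem_G (R := R) X.dg s 1) (single_mem_G (R := R) X.dg j 1)
  rwa [add_comm] at h2

end

end Pool.Agent.Lib.MP_f0b71a_alC
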