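import Pool.Agent.Lib.MP_f0b71a_alC.Bar

/-!
# The sign operator, the tensor product of a complex with itself, chain maps
-/

universe u

namespace Pool.Agent.Lib.MP_f0b71a_alC

open IsLocalRing Finsupp Pool.Agent.Lib.MP_f0b71a_al

noncomputable section

section

variable {R : Type u} [CommRing R] {ι : Type}

theorem lin_ext {V : Type*} [AddCommGroup V] [Module R V] {f g : (ι →₀ R) →ₗ[R] V}
    (h : ∀ i, f (single i 1) = g (single i 1)) : f = g :=
  Finsupp.lhom_ext' fun i => LinearMap.ext_ring (h i)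

/-- The sign operator `x ↦ (-1)^|x| x`. -/
def eta (R : Type u) [CommRing R] {ι : Type} (dg : ι → ℕ) : (ι →₀ R) →ₗ[R] (ι →₀ R) :=
  Finsupp.linearCombination R fun i => (-1 : R) ^ dg i • single i (1 : R)

theorem eta_single (dg : ι → ℕ) (i : ι) :
    eta R dg (single i 1) = (-1 : R) ^ dg i • single i (1 : R) := by
  unfold eta
  rw [Finsupp.linearCombination_single, one_smul]

theorem neg_one_pow_mul_self (n : ℕ) : (-1 : R) ^ n * (-1 : R) ^ n = 1 := by
  rw [← mul_pow, neg_one_mul, neg_neg, one_pow]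

theorem neg_one_pow_congr {a b : ℕ} (h : ∃ c : ℤ, (a : ℤ) = b + 2 * c) :
    (-1 : R) ^ a = (-1 : R) ^ b := by
  obtain ⟨c, hc⟩ := h
  rcases le_total a b with hab | hab
  · obtain ⟨k, rfl⟩ := Nat.exists_eq_add_of_le hab
    obtain ⟨l, hl⟩ : ∃ l : ℕ, k = 2 * l := ⟨(-c).toNat, by omega⟩
    rw [hl, pow_add, pow_mul, neg_one_sq, one_pow, mul_one]
  · obtain ⟨k, rfl⟩ := Nat.exists_eq_add_of_le hab
    obtain ⟨l, hl⟩ : ∃ l : ℕ, k = 2 * l := ⟨c.toNat, by omega⟩
    rw [hl, pow_add, pow_mul, neg_one_sq, one_pow, mul_one]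

theorem eta_eta (dg : ι → ℕ) (x : ι →₀ R) : eta R dg (eta R dg x) = x := by
  have h : eta R dg ∘ₗ eta R dg = LinearMap.id := lin_ext fun i => by
    rw [LinearMap.comp_apply, eta_single, map_smul, eta_single, smul_smul,
      neg_one_pow_mul_self, one_smul]
    rfl
  exact LinearMap.congr_fun h x

theorem eta_G {dg : ι → ℕ} {n : ℕ} {x : ι →₀ R} (hx : x ∈ G R dg n) :
    eta R dg x = (-1 : R) ^ n • x := by
  have h := map_G (eta R dg - (-1 : R) ^ n • LinearMap.id) (⊥ : Submodule R (ι →₀ R)) (g := n)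
    (fun j hj => by
      rw [Submodule.mem_bot, LinearMap.sub_apply, eta_single, LinearMap.smul_apply,
        show dg j = n by omega]
      exact sub_self _) hx
  rw [Submodule.mem_bot, LinearMap.sub_apply] at h
  exact sub_eq_zero.1 h

/-- The sign operator and a map of degree `r`. -/
theorem eta_comm {dg : ι → ℕ} {f : (ι →₀ R) →ₗ[R] (ι →₀ R)} {r : ℤ}
    (hf : ∀ i, f (single i 1) ∈ G R dg (dg i + r)) (x : ι →₀ R) :
    eta R dg (f x) = (-1 : R) ^ r.natAbs • f (eta R dg x) := by
  have h : eta R dg ∘ₗ f = (-1 : R) ^ r.natAbs • (f ∘ₗ eta R dg) := lin_ext fun i => by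
    rw [LinearMap.comp_apply, LinearMap.smul_apply, LinearMap.comp_apply, eta_single, map_smul,
      smul_smul]
    rcases lt_or_ge ((dg i : ℤ) + r) 0 with h0 | h0
    · rw [G_neg h0 (hf i), map_zero, smul_zero]
    · obtain ⟨n, hn⟩ := Int.eq_ofNat_of_zero_le h0
      have h1 := hf i
      rw [hn] at h1
      rw [eta_G h1, ← pow_add]
      congr 1
      refine neg_one_pow_congr ?_
      rcases le_total 0 r with hr | hr
      · exact ⟨0, by omega⟩
      · exact ⟨r, by omega⟩
  exact LinearMap.congr_fun h x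

/-- The tensor product of two vectors. -/
def tens (R : Type u) [CommRing R] (ι : Type) :
    (ι →₀ R) →ₗ[R] (ι →₀ R) →ₗ[R] (ι × ι →₀ R) :=
  Finsupp.linearCombination R fun i => Finsupp.linearCombination R fun j => single (i, j) (1 : R)

theorem tens_single (i j : ι) : tens R ι (single i 1) (single j 1) = single (i, j) 1 := by
  unfold tens
  rw [Finsupp.linearCombination_single, one_smul, Finsupp.linearCombination_single, one_smul]

theorem bil_ext {V : Type*} [AddCommGroup V] [Module R V]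
    {B B' : (ι →₀ R) →ₗ[R] (ι →₀ R) →ₗ[R] V}
    (h : ∀ i j, B (single i 1) (single j 1) = B' (single i 1) (single j 1)) : B = B' :=
  lin_ext fun i => lin_ext fun j => h i j

/-- The linear map given by a bilinear map. -/
def ofB {V : Type*} [AddCommGroup V] [Module R V] (B : (ι →₀ R) →ₗ[R] (ι →₀ R) →ₗ[R] V) :
    (ι × ι →₀ R) →ₗ[R] V :=
  Finsupp.linearCombination R fun p => B (single p.1 1) (single p.2 1)

theorem ofB_tens {V : Type*} [AddCommGroup V] [Module R V]
    (B : (ι →₀ R) →ₗ[R] (ι →₀ R) →ₗ[R] V) (x y : ι →₀ R) : ofB B (tens R ι x y) = B x y := by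
  have h : (tens R ι).compr₂ (ofB B) = B := bil_ext fun i j => by
    rw [LinearMap.compr₂_apply, tens_single]
    unfold ofB
    rw [Finsupp.linearCombination_single, one_smul]
  exact LinearMap.congr_fun₂ h x y

theorem tens_ext {V : Type*} [AddCommGroup V] [Module R V] {f g : (ι × ι →₀ R) →ₗ[R] V}
    (h : ∀ i j, f (tens R ι (single i 1) (single j 1)) = g (tens R ι (single i 1) (single j 1))) :
    f = g := lin_ext fun p => by
  have h1 := h p.1 p.2
  rwa [tens_single] at h1

theorem tens_G {dg : ι → ℕ} {a b : ℤ} {x y : ι →₀ R} (hx : x ∈ G R dg a) (hy : y ∈ G R dg b) :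
    tens R ι x y ∈ G R (fun p : ι × ι => dg p.1 + dg p.2) (a + b) := by
  have h1 : ∀ i, (dg i : ℤ) = a → tens R ι (single i 1) y ∈
      G R (fun p : ι × ι => dg p.1 + dg p.2) (a + b) := fun i hi =>
    map_G (tens R ι (single i 1)) _ (g := b) (fun j hj => by
      rw [tens_single]
      have h2 := single_mem_G (R := R) (fun p : ι × ι => dg p.1 + dg p.2) (i, j) 1
      have h3 : (((fun p : ι × ι => dg p.1 + dg p.2) (i, j) : ℕ) : ℤ) = a + b := by
        change ((dg i + dg j : ℕ) : ℤ) = a + b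
        push_cast
        rw [hi, hj]
      rwa [h3] at h2) hy
  exact map_G ((tens R ι).flip y) _ (g := a) (fun i hi => h1 i hi) hx

end

section

variable {R : Type u} [CommRing R] [IsLocalRing R] {ι J : Type}

theorem tens_mE_left {x : ι →₀ R} (hx : x ∈ mE R ι) (y : ι →₀ R) :
    tens R ι x y ∈ mE R (ι × ι) :=
  map_mE ((tens R ι).flip y) hx

theorem tens_mE_right (x : ι →₀ R) {y : ι →₀ R} (hy : y ∈ mE R ι) :
    tens R ι x y ∈ mE R (ι × ι) :=
  map_mE (tens R ι x) hy

theorem Cpx.eta_e (X : Cpx R ι) (x : ι →₀ R) :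
    X.e (eta R X.dg x) = -eta R X.dg (X.e x) := by
  have h := eta_comm X.hG x
  rw [show (-1 : ℤ).natAbs = 1 from rfl, pow_one, neg_one_smul] at h
  rw [h, neg_neg]

/-- The bilinear map of the differential of the tensor product. -/
def Cpx.prodB (X : Cpx R ι) : (ι →₀ R) →ₗ[R] (ι →₀ R) →ₗ[R] (ι × ι →₀ R) :=
  tens R ι ∘ₗ X.e + ((tens R ι).compl₂ X.e) ∘ₗ eta R X.dg

theorem Cpx.prodB_apply (X : Cpx R ι) (x y : ι →₀ R) :
    X.prodB x y = tens R ι (X.e x) y + tens R ι (eta R X.dg x) (X.e y) := rfl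

theorem Cpx.prodB_sq (X : Cpx R ι) (z : ι × ι →₀ R) : ofB X.prodB (ofB X.prodB z) = 0 := by
  have h : ofB X.prodB ∘ₗ ofB X.prodB = 0 := tens_ext fun i j => by
    rw [LinearMap.comp_apply, ofB_tens, X.prodB_apply, map_add, ofB_tens, ofB_tens,
      X.prodB_apply, X.prodB_apply, X.sq, X.sq, map_zero, map_zero, LinearMap.zero_apply,
      zero_add, add_zero, X.eta_e, map_neg, LinearMap.neg_apply, add_neg_cancel]
    rfl
  exact LinearMap.congr_fun h z

/-- The tensor product of a complex with itself. -/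
def Cpx.prod (X : Cpx R ι) : Cpx R (ι × ι) where
  dg := fun p => X.dg p.1 + X.dg p.2
  e := ofB X.prodB
  sq := X.prodB_sq
  hG := fun p => by
    obtain ⟨i, j⟩ := p
    rw [← tens_single, ofB_tens, X.prodB_apply, eta_single, map_smul, LinearMap.smul_apply]
    have h1 := tens_G (X.hG i) (single_mem_G (R := R) X.dg j 1)
    have h2 := tens_G (single_mem_G (R := R) X.dg i 1) (X.hG j)
    have h3 : (((fun p : ι × ι => X.dg p.1 + X.dg p.2) (i, j) : ℕ) : ℤ) + (-1) =
        X.dg i + (-1) + X.dg j := by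
      change ((X.dg i + X.dg j : ℕ) : ℤ) + (-1) = _
      push_cast
      ring
    have h4 : (X.dg i : ℤ) + (X.dg j + (-1)) = X.dg i + (-1) + X.dg j := by ring
    rw [h4] at h2
    rw [h3]
    exact Submodule.add_mem _ h1 (Submodule.smul_mem _ _ h2)
  hm := fun p => by
    obtain ⟨i, j⟩ := p
    rw [← tens_single, ofB_tens, X.prodB_apply]
    exact Submodule.add_mem _ (tens_mE_left (X.hm i) _) (tens_mE_right _ (X.hm j))

theorem Cpx.prod_e (X : Cpx R ι) (x y : ι →₀ R) :
    X.prod.e (tens R ι x y) = tens R ι (X.e x) y + tens R ι (eta R X.dg x) (X.e y) :=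
  ofB_tens _ _ _

theorem Cpx.prod_dg (X : Cpx R ι) (i j : ι) :
    (X.prod.dg (i, j) : ℤ) = X.dg i + X.dg j := by
  change ((X.dg i + X.dg j : ℕ) : ℤ) = _
  push_cast
  rfl

/-- Chain maps with a given component of degree `0`. -/
theorem liftc (Y : Cpx R J) (X : Cpx R ι) (hX : X.Exact) (r : ℤ) (s : R)
    (u : J → (ι →₀ R)) (hu : ∀ j, (Y.dg j : ℤ) + r = 0 → u j ∈ G R X.dg 0) :
    ∃ h : (J →₀ R) →ₗ[R] (ι →₀ R), (∀ j, h (single j 1) ∈ G R X.dg (Y.dg j + r)) ∧
      (∀ x, X.e (h x) = s • h (Y.e x)) ∧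
      ∀ j, (Y.dg j : ℤ) + r = 0 → h (single j 1) = u j := by
  classical
  let h0 : (J →₀ R) →ₗ[R] (ι →₀ R) :=
    Finsupp.linearCombination R fun j => if (Y.dg j : ℤ) + r = 0 then u j else 0
  have h0s : ∀ j, h0 (single j 1) = if (Y.dg j : ℤ) + r = 0 then u j else 0 := fun j => by
    simp only [h0, Finsupp.linearCombination_single, one_smul]
  have h0G : ∀ j, h0 (single j 1) ∈ G R X.dg (Y.dg j + r) := fun j => by
    rw [h0s]
    split_ifs with h
    · rw [h]
      exact hu j h
    · exact Submodule.zero_mem _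
  obtain ⟨h', h1, h2, h3⟩ := lift Y X hX r s (s • (h0 ∘ₗ Y.e) - X.e ∘ₗ h0)
    (fun j => by
      rw [LinearMap.sub_apply, LinearMap.smul_apply, LinearMap.comp_apply, LinearMap.comp_apply]
      refine Submodule.sub_mem _ (Submodule.smul_mem _ _ ?_) ?_
      · have h4 := map_sh h0G (Y.hG j)
        rwa [show (Y.dg j : ℤ) + -1 + r = Y.dg j + (r - 1) by ring] at h4
      · have h4 := X.eG (h0G j)
        rwa [show (Y.dg j : ℤ) + r + -1 = Y.dg j + (r - 1) by ring] at h4)
    (fun x => by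
      simp only [LinearMap.sub_apply, LinearMap.smul_apply, LinearMap.comp_apply, map_sub,
        map_smul, X.sq, Y.sq, map_zero, smul_zero, sub_zero, zero_sub, smul_neg,
        add_neg_cancel])
    (fun j hj => by
      rw [LinearMap.sub_apply, LinearMap.smul_apply, LinearMap.comp_apply, LinearMap.comp_apply,
        h0s, if_neg (by omega), map_zero, sub_zero]
      exact Submodule.smul_mem _ _ (map_mE h0 (Y.hm j)))
  refine ⟨h0 + h', fun j => ?_, fun x => ?_, fun j hj => ?_⟩
  · rw [LinearMap.add_apply]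
    exact Submodule.add_mem _ (h0G j) (h1 j)
  · simp only [LinearMap.add_apply, map_add, h2, LinearMap.sub_apply, LinearMap.smul_apply,
      LinearMap.comp_apply, smul_add]
    abel
  · have z1 : h0 (Y.e (single j 1)) = 0 := G_neg (g := (Y.dg j : ℤ) + (-1) + r) (by omega)
      (map_sh h0G (Y.hG j))
    have z2 : h' (Y.e (single j 1)) = 0 := G_neg (g := (Y.dg j : ℤ) + (-1) + r) (by omega)
      (map_sh h1 (Y.hG j))
    have z3 : X.e (h0 (single j 1)) = 0 := G_neg (g := (Y.dg j : ℤ) + r + (-1)) (by omega)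
      (X.eG (h0G j))
    have z4 := h3 j (by
      rw [LinearMap.sub_apply, LinearMap.smul_apply, LinearMap.comp_apply, LinearMap.comp_apply,
        z1, z2, z3, smul_zero, sub_zero, add_zero])
    rw [LinearMap.add_apply, z4, add_zero, h0s, if_pos hj]

end

end

end Pool.Agent.Lib.MP_f0b71a_alC
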