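import Pool.Agent.Lib.MP_f0b71a_al.Main

/-!
# Complexes of free modules with a homogeneous basis, construction of maps to an exact complex

`J →₀ R` is graded by a degree function `J → ℕ`.
-/

universe u

namespace Pool.Agent.Lib.MP_f0b71a_alC

open IsLocalRing Finsupp

noncomputable section

variable {R : Type u} [CommRing R] {J : Type} {ι : Type}

/-- The elements of degree `g`. -/
def G (R : Type u) [CommRing R] {J : Type} (dg : J → ℕ) (g : ℤ) : Submodule R (J →₀ R) :=
  Finsupp.supported R R {j | (dg j : ℤ) = g}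

theorem mem_G {dg : J → ℕ} {g : ℤ} {x : J →₀ R} :
    x ∈ G R dg g ↔ ∀ j, x j ≠ 0 → (dg j : ℤ) = g := by
  unfold G
  rw [Finsupp.mem_supported]
  constructor
  · intro h j hj
    exact h (Finsupp.mem_support_iff.2 hj)
  · intro h j hj
    exact h j (Finsupp.mem_support_iff.1 hj)

theorem single_mem_G (dg : J → ℕ) (j : J) (c : R) : single j c ∈ G R dg (dg j) :=
  Finsupp.single_mem_supported R c rfl

theorem G_neg {dg : J → ℕ} {g : ℤ} (hg : g < 0) {x : J →₀ R} (hx : x ∈ G R dg g) : x = 0 := by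
  ext j
  by_contra h
  have := mem_G.1 hx j h
  omega

/-- A linear map on elements of degree `g`. -/
theorem map_G {V : Type*} [AddCommGroup V] [Module R V] {dg : J → ℕ} (f : (J →₀ R) →ₗ[R] V)
    (W : Submodule R V) {g : ℤ} (h : ∀ j, (dg j : ℤ) = g → f (single j 1) ∈ W) {x : J →₀ R}
    (hx : x ∈ G R dg g) : f x ∈ W := by
  have h1 : x = x.sum fun j c => c • single j (1 : R) := by
    conv_lhs => rw [← Finsupp.sum_single x]
    refine Finsupp.sum_congr fun j _ => ?_
    simp
  rw [h1, Finsupp.sum, map_sum]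
  refine W.sum_mem fun j hj => ?_
  rw [map_smul]
  exact W.smul_mem _ (h j (mem_G.1 hx j (Finsupp.mem_support_iff.1 hj)))

theorem map_sh {dg : J → ℕ} {di : ι → ℕ} {f : (J →₀ R) →ₗ[R] (ι →₀ R)} {r : ℤ}
    (h : ∀ j, f (single j 1) ∈ G R di (dg j + r)) {g : ℤ} {x : J →₀ R} (hx : x ∈ G R dg g) :
    f x ∈ G R di (g + r) :=
  map_G f _ (fun j hj => by rw [← hj]; exact h j) hx

variable [IsLocalRing R]

/-- The elements with coefficients in the maximal ideal. -/
def mE (R : Type u) [CommRing R] [IsLocalRing R] (J : Type) : Submodule R (J →₀ R) where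
  carrier := {x | ∀ j, x j ∈ maximalIdeal R}
  add_mem' := fun hx hy j => by
    rw [Finsupp.add_apply]
    exact Ideal.add_mem _ (hx j) (hy j)
  zero_mem' := fun j => Ideal.zero_mem _
  smul_mem' := fun c x hx j => by
    rw [Finsupp.smul_apply, smul_eq_mul]
    exact Ideal.mul_mem_left _ _ (hx j)

theorem mem_mE {x : J →₀ R} : x ∈ mE R J ↔ ∀ j, x j ∈ maximalIdeal R := Iff.rfl

theorem smul_mem_mE {a : R} (ha : a ∈ maximalIdeal R) (x : J →₀ R) : a • x ∈ mE R J := fun j => by
  rw [Finsupp.smul_apply, smul_eq_mul]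
  exact Ideal.mul_mem_right _ _ ha

theorem map_mE (f : (J →₀ R) →ₗ[R] (ι →₀ R)) {x : J →₀ R} (hx : x ∈ mE R J) :
    f x ∈ mE R ι := by
  have h1 : x = x.sum fun j c => c • single j (1 : R) := by
    conv_lhs => rw [← Finsupp.sum_single x]
    refine Finsupp.sum_congr fun j _ => ?_
    simp
  rw [h1, Finsupp.sum, map_sum]
  refine (mE R ι).sum_mem fun j _ => ?_
  rw [map_smul]
  exact smul_mem_mE (hx j) _

theorem map_mE_of {f : (J →₀ R) →ₗ[R] (ι →₀ R)} (h : ∀ j, f (single j 1) ∈ mE R ι)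
    (x : J →₀ R) : f x ∈ mE R ι := by
  have h1 : x = x.sum fun j c => c • single j (1 : R) := by
    conv_lhs => rw [← Finsupp.sum_single x]
    refine Finsupp.sum_congr fun j _ => ?_
    simp
  rw [h1, Finsupp.sum, map_sum]
  refine (mE R ι).sum_mem fun j _ => ?_
  rw [map_smul]
  exact (mE R ι).smul_mem _ (h j)

/-- A minimal complex of free modules with a homogeneous basis. -/
structure Cpx (R : Type u) [CommRing R] [IsLocalRing R] (J : Type) where
  /-- the degrees of the basis elements -/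
  dg : J → ℕ
  /-- the differential -/
  e : (J →₀ R) →ₗ[R] (J →₀ R)
  sq : ∀ x, e (e x) = 0
  hG : ∀ j, e (single j 1) ∈ G R dg (dg j + (-1))
  hm : ∀ j, e (single j 1) ∈ mE R J

theorem Cpx.em (Y : Cpx R J) (x : J →₀ R) : Y.e x ∈ mE R J := map_mE_of Y.hm x

theorem Cpx.eG (Y : Cpx R J) {g : ℤ} {x : J →₀ R} (hx : x ∈ G R Y.dg g) :
    Y.e x ∈ G R Y.dg (g + (-1)) := map_sh Y.hG hx

/-- Exactness, with `𝔪` as the image in degree `0`. -/
def Cpx.Exact (X : Cpx R ι) : Prop :=
  ∀ g : ℤ, ∀ z ∈ G R X.dg g, X.e z = 0 → (g = 0 → z ∈ mE R ι) → ∃ y ∈ G R X.dg (g + 1), X.e y = z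

/-- Construction of homotopies and chain maps. -/
theorem lift (Y : Cpx R J) (X : Cpx R ι) (hX : X.Exact) (r : ℤ) (s : R)
    (t : (J →₀ R) →ₗ[R] (ι →₀ R)) (htG : ∀ j, t (single j 1) ∈ G R X.dg (Y.dg j + (r - 1)))
    (htc : ∀ x, X.e (t x) + s • t (Y.e x) = 0)
    (ht0 : ∀ j, (Y.dg j : ℤ) + (r - 1) = 0 → t (single j 1) ∈ mE R ι) :
    ∃ h : (J →₀ R) →ₗ[R] (ι →₀ R), (∀ j, h (single j 1) ∈ G R X.dg (Y.dg j + r)) ∧
      (∀ x, X.e (h x) = t x + s • h (Y.e x)) ∧
      ∀ j, t (single j 1) + s • h (Y.e (single j 1)) = 0 → h (single j 1) = 0 := by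
  classical
  -- a choice of preimages
  have hpre : ∀ (g : ℤ) (z : ι →₀ R), ∃ y : ι →₀ R, (z = 0 → y = 0) ∧
      ((z ∈ G R X.dg g ∧ X.e z = 0 ∧ (g = 0 → z ∈ mE R ι)) → y ∈ G R X.dg (g + 1) ∧ X.e y = z) := by
    intro g z
    by_cases hz : z = 0
    · exact ⟨0, fun _ => rfl, fun _ => ⟨Submodule.zero_mem _, by rw [map_zero, hz]⟩⟩
    · by_cases h : z ∈ G R X.dg g ∧ X.e z = 0 ∧ (g = 0 → z ∈ mE R ι)
      · obtain ⟨y, hy1, hy2⟩ := hX g z h.1 h.2.1 h.2.2
        exact ⟨y, fun h0 => absurd h0 hz, fun _ => ⟨hy1, hy2⟩⟩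
      · exact ⟨0, fun _ => rfl, fun h' => absurd h' h⟩
  choose pre hpre0 hpre1 using hpre
  let F : (j : J) → ((i : J) → Y.dg i < Y.dg j → (ι →₀ R)) → (ι →₀ R) := fun j H =>
    pre (Y.dg j + (r - 1)) (t (single j 1) + s • (Y.e (single j 1)).sum fun i c =>
      if h : Y.dg i < Y.dg j then c • H i h else 0)
  let H : J → (ι →₀ R) := (measure Y.dg).wf.fix F
  have hH : ∀ j, H j = pre (Y.dg j + (r - 1)) (t (single j 1) +
      s • (Y.e (single j 1)).sum fun i c => if Y.dg i < Y.dg j then c • H i else 0) := by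
    intro j
    have h1 : H j = F j fun i _ => H i := (measure Y.dg).wf.fix_eq F j
    rw [h1]
    simp only [F, dite_eq_ite]
  let h : (J →₀ R) →ₗ[R] (ι →₀ R) := Finsupp.linearCombination R H
  have hs : ∀ j, h (single j 1) = H j := fun j => by
    simp only [h, Finsupp.linearCombination_single, one_smul]
  have he : ∀ j, ((Y.e (single j 1)).sum fun i c => if Y.dg i < Y.dg j then c • H i else 0) =
      h (Y.e (single j 1)) := by
    intro j
    simp only [h, Finsupp.linearCombination_apply]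
    refine Finsupp.sum_congr fun i hi => ?_
    have h1 := mem_G.1 (Y.hG j) i (Finsupp.mem_support_iff.1 hi)
    rw [if_pos (by omega)]
  have hH' : ∀ j, H j = pre (Y.dg j + (r - 1)) (t (single j 1) + s • h (Y.e (single j 1))) := by
    intro j
    rw [hH j, he j]
  have key : ∀ n : ℕ, ∀ j, Y.dg j = n → H j ∈ G R X.dg (Y.dg j + r) ∧
      X.e (H j) = t (single j 1) + s • h (Y.e (single j 1)) := by
    intro n
    induction n using Nat.strong_induction_on with
    | _ n ih =>
      intro j hj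
      have hlow : ∀ i, Y.e (single j 1) i ≠ 0 → (Y.dg i : ℤ) = Y.dg j + (-1) := fun i hi =>
        mem_G.1 (Y.hG j) i hi
      have hsum : Y.e (single j 1) = (Y.e (single j 1)).sum fun i c => c • single i (1 : R) := by
        conv_lhs => rw [← Finsupp.sum_single (Y.e (single j 1))]
        refine Finsupp.sum_congr fun j _ => ?_
        simp
      have z1 : h (Y.e (single j 1)) ∈ G R X.dg (Y.dg j + (r - 1)) := by
        rw [hsum, Finsupp.sum, map_sum]
        refine Submodule.sum_mem _ fun i hi => ?_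
        have h2 := hlow i (Finsupp.mem_support_iff.1 hi)
        rw [map_smul, hs]
        refine Submodule.smul_mem _ _ ?_
        have h3 := (ih (Y.dg i) (by omega) i rfl).1
        rwa [h2, show (Y.dg j : ℤ) + -1 + r = Y.dg j + (r - 1) by ring] at h3
      have z2 : X.e (h (Y.e (single j 1))) = t (Y.e (single j 1)) := by
        have h4 : X.e (h (Y.e (single j 1))) =
            t (Y.e (single j 1)) + s • h (Y.e (Y.e (single j 1))) := by
          conv_lhs => rw [hsum]
          conv_rhs => rw [hsum]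
          simp only [Finsupp.sum, map_sum, map_smul, hs]
          rw [Finset.smul_sum, ← Finset.sum_add_distrib]
          refine Finset.sum_congr rfl fun i hi => ?_
          have h2 := hlow i (Finsupp.mem_support_iff.1 hi)
          have h3 := (ih (Y.dg i) (by omega) i rfl).2
          rw [h3, smul_add, smul_comm s]
        rw [h4, Y.sq, map_zero, smul_zero, add_zero]
      have z3 := htc (single j 1)
      have z4 := hpre1 (Y.dg j + (r - 1)) (t (single j 1) + s • h (Y.e (single j 1)))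
        ⟨Submodule.add_mem _ (htG j) (Submodule.smul_mem _ _ z1), by
          rw [map_add, map_smul, z2]
          exact z3, fun h0 => Submodule.add_mem _ (ht0 j h0)
            (Submodule.smul_mem _ _ (map_mE h (Y.hm j)))⟩
      rw [← hH' j] at z4
      refine ⟨?_, z4.2⟩
      have z5 := z4.1
      rwa [show (Y.dg j : ℤ) + (r - 1) + 1 = Y.dg j + r by ring] at z5
  refine ⟨h, fun j => ?_, fun x => ?_, fun j hj => ?_⟩
  · rw [hs]
    exact (key _ j rfl).1
  · have h1 : X.e ∘ₗ h = t + s • (h ∘ₗ Y.e) := by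
      refine Finsupp.lhom_ext' fun j => LinearMap.ext_ring ?_
      simp only [LinearMap.comp_apply, LinearMap.add_apply, LinearMap.smul_apply,
        Finsupp.lsingle_apply, hs]
      exact (key _ j rfl).2
    exact LinearMap.congr_fun h1 x
  · rw [hs, hH' j, hj]
    exact hpre0 _ _ rfl

/-- A chain map is zero modulo `𝔪` if its component of degree `0` is. -/
theorem null (Y : Cpx R J) (X : Cpx R ι) (hX : X.Exact) (r : ℤ) (ε : R)
    (f : (J →₀ R) →ₗ[R] (ι →₀ R)) (hfG : ∀ j, f (single j 1) ∈ G R X.dg (Y.dg j + r))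
    (hfc : ∀ x, X.e (f x) = ε • f (Y.e x))
    (hf0 : ∀ j, (Y.dg j : ℤ) + r = 0 → f (single j 1) ∈ mE R ι) (x : J →₀ R) :
    f x ∈ mE R ι := by
  obtain ⟨h, -, h2, -⟩ := lift Y X hX (r + 1) (-ε) f
    (fun j => by rw [show (Y.dg j : ℤ) + (r + 1 - 1) = Y.dg j + r by ring]; exact hfG j)
    (fun x => by rw [hfc x, neg_smul, add_neg_cancel])
    (fun j hj => hf0 j (by omega))
  have h3 : f x = X.e (h x) + ε • h (Y.e x) := by
    rw [h2 x, neg_smul, neg_add_cancel_right]
  rw [h3]
  exact Submodule.add_mem _ (X.em _) (Submodule.smul_mem _ _ (map_mE h (Y.em x)))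

end

end Pool.Agent.Lib.MP_f0b71a_alC
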