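import Pool.Agent.Lib.MP_f0b71a_alC.Cop

/-!
# The total complex of a minimal resolution of `k`
-/

universe u

namespace Pool.Agent.Lib.MP_f0b71a_alC

open IsLocalRing Finsupp Pool.Agent.Lib.MP_f0b71a_al
open scoped Matrix

noncomputable section

variable {R : Type u} [CommRing R] [IsLocalRing R] (P : MinRes R)

/-- The basis of the total complex. -/
abbrev Ix : Type := Σ n, Fin (P.b n)

/-- The inclusion of `P_n`. -/
def inc (n : ℕ) : (Fin (P.b n) → R) →ₗ[R] (Ix P →₀ R) :=
  Fintype.linearCombination R fun i => single (⟨n, i⟩ : Ix P) (1 : R)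

theorem inc_single (n : ℕ) (i : Fin (P.b n)) :
    inc P n (Pi.single i 1) = single (⟨n, i⟩ : Ix P) (1 : R) := by
  classical
  unfold inc
  rw [Fintype.linearCombination_apply_single, one_smul]

theorem inc_apply (n : ℕ) (x : Fin (P.b n) → R) (i : Fin (P.b n)) :
    inc P n x (⟨n, i⟩ : Ix P) = x i := by
  classical
  unfold inc
  rw [Fintype.linearCombination_apply, Finsupp.finsetSum_apply, Finset.sum_eq_single i]
  · rw [Finsupp.smul_apply, Finsupp.single_eq_same, smul_eq_mul, mul_one]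
  · intro j _ hj
    rw [Finsupp.smul_apply, Finsupp.single_eq_of_ne, smul_zero]
    intro h
    exact hj (eq_of_heq (Sigma.mk.inj_iff.1 h).2).symm
  · intro h
    exact absurd (Finset.mem_univ _) h

theorem inc_apply_ne {n m : ℕ} (h : m ≠ n) (x : Fin (P.b n) → R) (i : Fin (P.b m)) :
    inc P n x (⟨m, i⟩ : Ix P) = 0 := by
  classical
  unfold inc
  rw [Fintype.linearCombination_apply, Finsupp.finsetSum_apply]
  refine Finset.sum_eq_zero fun j _ => ?_
  rw [Finsupp.smul_apply, Finsupp.single_eq_of_ne, smul_zero]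
  intro h'
  exact h (Sigma.mk.inj_iff.1 h').1

/-- The degree of a basis element. -/
def dgI (p : Ix P) : ℕ := p.1

theorem inc_mem (n : ℕ) (x : Fin (P.b n) → R) : inc P n x ∈ G R (dgI P) n := by
  rw [mem_G]
  rintro ⟨m, i⟩ h
  by_contra hm
  exact h (inc_apply_ne P (fun h' => hm (congrArg Nat.cast h')) x i)

theorem inc_mem_mE {n : ℕ} {x : Fin (P.b n) → R} (h : ∀ i, x i ∈ maximalIdeal R) :
    inc P n x ∈ mE R (Ix P) := by
  rintro ⟨m, i⟩
  by_cases hm : m = n
  · subst hm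
    rw [inc_apply]
    exact h i
  · rw [inc_apply_ne P hm]
    exact Ideal.zero_mem _

theorem exists_inc {n : ℕ} {z : Ix P →₀ R} (hz : z ∈ G R (dgI P) n) :
    ∃ x, z = inc P n x := by
  refine ⟨fun i => z ⟨n, i⟩, ?_⟩
  ext ⟨m, i⟩
  by_cases hm : m = n
  · subst hm
    rw [inc_apply]
  · rw [inc_apply_ne P hm]
    by_contra h
    exact hm (by exact_mod_cast mem_G.1 hz _ h)

/-- The map of degree `-1` given by matrices. -/
def dn (A : ∀ n, Matrix (Fin (P.b n)) (Fin (P.b (n + 1))) R) : (Ix P →₀ R) →ₗ[R] (Ix P →₀ R) :=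
  Finsupp.linearCombination R fun p =>
    Nat.casesOn (motive := fun n => Fin (P.b n) → (Ix P →₀ R)) p.1 (fun _ => 0)
      (fun n j => inc P n fun i => A n i j) p.2

variable {P}

theorem dn_inc (A : ∀ n, Matrix (Fin (P.b n)) (Fin (P.b (n + 1))) R) (n : ℕ)
    (x : Fin (P.b (n + 1)) → R) : dn P A (inc P (n + 1) x) = inc P n (A n *ᵥ x) := by
  classical
  have h : dn P A ∘ₗ inc P (n + 1) = inc P n ∘ₗ (A n).mulVecLin := by
    refine ext_single fun j => ?_
    rw [LinearMap.comp_apply, LinearMap.comp_apply, inc_single, Matrix.mulVecLin_apply,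
      Matrix.mulVec_single_one]
    unfold dn
    rw [Finsupp.linearCombination_single, one_smul]
    rfl
  exact LinearMap.congr_fun h x

theorem dn_inc0 (A : ∀ n, Matrix (Fin (P.b n)) (Fin (P.b (n + 1))) R)
    (x : Fin (P.b 0) → R) : dn P A (inc P 0 x) = 0 := by
  classical
  have h : dn P A ∘ₗ inc P 0 = 0 := by
    refine ext_single fun j => ?_
    rw [LinearMap.comp_apply, inc_single]
    unfold dn
    rw [Finsupp.linearCombination_single, one_smul]
    rfl
  exact LinearMap.congr_fun h x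

theorem inc_ext {V : Type*} [AddCommGroup V] [Module R V] {f g : (Ix P →₀ R) →ₗ[R] V}
    (h : ∀ n x, f (inc P n x) = g (inc P n x)) : f = g := lin_ext fun p => by
  obtain ⟨n, i⟩ := p
  have h1 := h n (Pi.single i 1)
  rwa [inc_single] at h1

theorem dn_G (A : ∀ n, Matrix (Fin (P.b n)) (Fin (P.b (n + 1))) R) (p : Ix P) :
    dn P A (single p 1) ∈ G R (dgI P) (dgI P p + (-1)) := by
  obtain ⟨n, i⟩ := p
  rw [← inc_single]
  match n, i with
  | 0, i =>
    rw [dn_inc0]
    exact Submodule.zero_mem _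
  | n + 1, i =>
    rw [dn_inc]
    have h := inc_mem P n (A n *ᵥ Pi.single i 1)
    have h1 : ((dgI P (⟨n + 1, i⟩ : Ix P) : ℕ) : ℤ) + (-1) = n := by
      change ((n + 1 : ℕ) : ℤ) + (-1) = n
      push_cast
      ring
    rwa [h1]

variable (P) in
/-- The total complex. -/
def totX : Cpx R (Ix P) where
  dg := dgI P
  e := dn P P.d
  sq := fun x => by
    have h : dn P P.d ∘ₗ dn P P.d = 0 := inc_ext fun n x => by
      rw [LinearMap.comp_apply, LinearMap.zero_apply]
      match n, x with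
      | 0, x => rw [dn_inc0, map_zero]
      | 1, x => rw [dn_inc, dn_inc0]
      | n + 2, x =>
        rw [dn_inc, dn_inc, Matrix.mulVec_mulVec, P.mul_eq_zero, Matrix.zero_mulVec, map_zero]
    exact LinearMap.congr_fun h x
  hG := dn_G P.d
  hm := fun p => by
    obtain ⟨n, i⟩ := p
    rw [← inc_single]
    match n, i with
    | 0, i =>
      rw [dn_inc0]
      exact Submodule.zero_mem _
    | n + 1, i =>
      rw [dn_inc, Matrix.mulVec_single_one]
      exact inc_mem_mE P fun j => P.mem n j i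

theorem totX_e (x : Ix P →₀ R) : (totX P).e x = dn P P.d x := rfl

theorem totX_dg (n : ℕ) (i : Fin (P.b n)) : (totX P).dg ⟨n, i⟩ = n := rfl

theorem totX_exact : (totX P).Exact := by
  intro g z hz hez h0
  rcases lt_or_ge g 0 with hg | hg
  · exact ⟨0, Submodule.zero_mem _, by rw [map_zero, G_neg hg hz]⟩
  obtain ⟨n, rfl⟩ := Int.eq_ofNat_of_zero_le hg
  obtain ⟨x, rfl⟩ := exists_inc P hz
  match n, x with
  | 0, x =>
    obtain ⟨y, hy⟩ := (P.ex0 x).1 fun i => by
      have h1 := h0 rfl ⟨0, i⟩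
      rwa [inc_apply] at h1
    refine ⟨inc P 1 y, ?_, ?_⟩
    · have h1 := inc_mem P 1 y
      rwa [show ((1 : ℕ) : ℤ) = ((0 : ℕ) : ℤ) + 1 by norm_num] at h1
    · rw [totX_e, dn_inc, ← hy]
  | n + 1, x =>
    have h1 : P.d n *ᵥ x = 0 := by
      rw [totX_e, dn_inc] at hez
      funext i
      have h2 := DFunLike.congr_fun hez ⟨n, i⟩
      rwa [inc_apply] at h2
    obtain ⟨y, hy⟩ := P.exact n x h1
    refine ⟨inc P (n + 2) y, ?_, ?_⟩
    · have h2 := inc_mem P (n + 2) y
      rwa [show ((n + 2 : ℕ) : ℤ) = ((n + 1 : ℕ) : ℤ) + 1 by push_cast; ring] at h2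
    · rw [totX_e, dn_inc, hy]

variable (P) in
/-- The basis element of degree `0`. -/
def oI : Ix P := ⟨0, P.i0⟩

theorem totX_uni : (totX P).Uni (oI P) := by
  rintro ⟨n, i⟩
  rw [totX_dg]
  constructor
  · rintro rfl
    rw [P.eq_i0 i]
    rfl
  · intro h
    exact (Sigma.mk.inj_iff.1 h).1

/-- The basis elements of degree less than `n`. -/
def SI (P : MinRes R) (n : ℕ) : Finset (Ix P) :=
  (Finset.range n).sigma fun _ => Finset.univ

theorem mem_SI (n : ℕ) (p : Ix P) : p ∈ SI P n ↔ (totX P).dg p < n := by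
  unfold SI
  rw [Finset.mem_sigma, Finset.mem_range]
  exact ⟨fun h => h.1, fun h => ⟨h, Finset.mem_univ _⟩⟩

variable {χ : maximalIdeal R →ₗ[R] ResidueField R}

/-- The inclusion of the vectors over `k` of degree `n`. -/
def inK (P : MinRes R) (n : ℕ) : (Fin (P.b n) → ResidueField R) →ₗ[R] (Ix P →₀ ResidueField R) :=
  ∑ i, (Finsupp.lsingle (⟨n, i⟩ : Ix P)) ∘ₗ LinearMap.proj i

theorem inK_apply (n : ℕ) (v : Fin (P.b n) → ResidueField R) (i : Fin (P.b n)) :
    inK P n v ⟨n, i⟩ = v i := by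
  classical
  unfold inK
  rw [LinearMap.sum_apply, Finsupp.finsetSum_apply, Finset.sum_eq_single i]
  · exact Finsupp.single_eq_same
  · intro j _ hj
    refine Finsupp.single_eq_of_ne ?_
    intro h
    exact hj (eq_of_heq (Sigma.mk.inj_iff.1 h).2).symm
  · intro h
    exact absurd (Finset.mem_univ _) h

theorem inK_apply_ne {n m : ℕ} (h : m ≠ n) (v : Fin (P.b n) → ResidueField R)
    (i : Fin (P.b m)) : inK P n v ⟨m, i⟩ = 0 := by
  classical
  unfold inK
  rw [LinearMap.sum_apply, Finsupp.finsetSum_apply]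
  refine Finset.sum_eq_zero fun j _ => Finsupp.single_eq_of_ne ?_
  intro h'
  exact h (Sigma.mk.inj_iff.1 h').1

theorem rd_inc (n : ℕ) (x : Fin (P.b n) → R) : rd R (Ix P) (inc P n x) = inK P n (red _ x) := by
  ext ⟨m, i⟩
  rw [rd_apply]
  by_cases hm : m = n
  · subst hm
    rw [inc_apply, inK_apply]
    rfl
  · rw [inc_apply_ne P hm, inK_apply_ne hm, map_zero]

theorem d2_inc (n : ℕ) (x : Fin (P.b (n + 1)) → R) :
    (totX P).d2 χ (inc P (n + 1) x) = inK P n (P.D χ n x) := by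
  ext ⟨m, i⟩
  rw [Cpx.d2_single]
  by_cases hm : m = n
  · subst hm
    rw [inK_apply, P.D_apply]
    refine congrArg χ (Subtype.ext ?_)
    change (totX P).e (inc P (m + 1) x) ⟨m, i⟩ = (P.d m *ᵥ x) i
    rw [totX_e, dn_inc, inc_apply]
  · rw [inK_apply_ne hm]
    have h1 : (totX P).e (inc P (n + 1) x) ⟨m, i⟩ = 0 := by
      rw [totX_e, dn_inc, inc_apply_ne P hm]
    have h2 : (⟨(totX P).e (inc P (n + 1) x) ⟨m, i⟩, (totX P).em (inc P (n + 1) x) ⟨m, i⟩⟩ :
        maximalIdeal R) = 0 := Subtype.ext h1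
    rw [h2, map_zero]

theorem d2_inc0 (x : Fin (P.b 0) → R) : (totX P).d2 χ (inc P 0 x) = 0 := by
  rw [Cpx.d2_apply, ← map_zero (cof χ)]
  exact cof_congr χ (dn_inc0 _ _)

/-- The chain map over `χ` on the total complex. -/
def totD (Φ : Deg P χ) : De (totX P) χ where
  D := dn P fun n => (-1 : R) ^ n • Φ.φ n
  DG := dn_G _
  eD := fun x => by
    have h : (totX P).e ∘ₗ (dn P fun n => (-1 : R) ^ n • Φ.φ n) =
        -((dn P fun n => (-1 : R) ^ n • Φ.φ n) ∘ₗ (totX P).e) := inc_ext fun n x => by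
      rw [LinearMap.comp_apply, LinearMap.neg_apply, LinearMap.comp_apply, totX_e, totX_e]
      match n, x with
      | 0, x => rw [dn_inc0, dn_inc0, map_zero, map_zero, neg_zero]
      | 1, x => rw [dn_inc, dn_inc, dn_inc0, dn_inc0, neg_zero]
      | n + 2, x =>
        rw [dn_inc, dn_inc, dn_inc, dn_inc, Matrix.mulVec_mulVec, Matrix.mulVec_mulVec,
          Matrix.mul_smul, Matrix.smul_mul, Φ.comm, pow_succ, mul_neg_one, neg_smul,
          Matrix.neg_mulVec, map_neg]
    exact LinearMap.congr_fun h x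
  res := fun p hp => by
    obtain ⟨n, i⟩ := p
    rw [totX_dg] at hp
    subst hp
    rw [← inc_single, d2_inc, dn_inc, rd_inc, pow_zero, one_smul]
    refine congrArg _ (funext fun j => ?_)
    rw [P.eq_i0 j, P.D_apply]
    exact Φ.res _

theorem totD_D (Φ : Deg P χ) (n : ℕ) (x : Fin (P.b (n + 1)) → R) :
    (totD Φ).D (inc P (n + 1) x) = inc P n (((-1 : R) ^ n • Φ.φ n) *ᵥ x) := dn_inc _ _ _

theorem totD_D0 (Φ : Deg P χ) (x : Fin (P.b 0) → R) : (totD Φ).D (inc P 0 x) = 0 := dn_inc0 _ _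

theorem totT_inc (Φ : Deg P χ) (n : ℕ) (x : Fin (P.b (n + 2)) → R) :
    (totD Φ).T (inc P (n + 2) x) = (-1 : R) ^ (n + 1) • inK P n (Φ.L χ n x) := by
  rw [De.T_apply, totD_D, d2_inc, Matrix.smul_mulVec, map_smul, map_smul]
  rfl

theorem totT_le (Φ : Deg P χ) (n : ℕ) :
    Module.length R ((G R (totX P).dg ((n + 2 : ℕ) : ℤ)).map (totD Φ).T) ≤
      Module.length R (LinearMap.range (Φ.L χ n)) := by
  refine (length_mono ?_).trans (length_map_le (inK P n) _)
  rintro - ⟨z, hz, rfl⟩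
  obtain ⟨x, rfl⟩ := exists_inc P hz
  rw [totT_inc, ← map_smul]
  exact ⟨_, Submodule.smul_mem _ _ ⟨x, rfl⟩, rfl⟩

theorem totT_low (Φ : Deg P χ) {g : ℤ} (hg : g < 2) :
    (G R (totX P).dg g).map (totD Φ).T = ⊥ := by
  rw [eq_bot_iff]
  rintro - ⟨z, hz, rfl⟩
  rw [Submodule.mem_bot]
  rcases lt_or_ge g 0 with h | h
  · rw [G_neg h hz, map_zero]
  · obtain ⟨n, rfl⟩ := Int.eq_ofNat_of_zero_le h
    obtain ⟨x, rfl⟩ := exists_inc P hz
    rw [De.T_apply]
    match n, x with
    | 0, x => rw [totD_D0, map_zero]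
    | 1, x => rw [totD_D, d2_inc0]
    | n + 2, x => exact absurd hg (by push_cast; omega)

theorem length_rd (n : ℕ) :
    (P.b n : ℕ∞) ≤ Module.length R ((G R (totX P).dg (n : ℤ)).map (rd R (Ix P))) := by
  rw [← length_vec (R := R) (P.b n)]
  let pr : (Ix P →₀ ResidueField R) →ₗ[R] (Fin (P.b n) → ResidueField R) :=
    LinearMap.pi fun i => Finsupp.lapply ⟨n, i⟩
  have h1 : (((G R (totX P).dg (n : ℤ)).map (rd R (Ix P))).map pr) = ⊤ := by
    rw [eq_top_iff]
    rintro v -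
    obtain ⟨x, rfl⟩ := red_surjective (R := R) _ v
    refine ⟨_, ⟨inc P n x, inc_mem P n x, rfl⟩, ?_⟩
    rw [rd_inc]
    funext i
    exact inK_apply n _ i
  rw [← Module.length_top (R := R) (M := Fin (P.b n) → ResidueField R), ← h1]
  exact length_map_le pr _

end

end Pool.Agent.Lib.MP_f0b71a_alC
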